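import Pool.Agent.H7.PU.U6

set_option autoImplicit false
open MeasureTheory Metric Filter
open scoped ComplexConjugate ENNReal Topology

/-! Twists by completely multiplicative functions. -/

namespace Pool.Agent.H7.PU

open Pool.Agent.Helper873.OneVar Pool.Agent.Helper873.Product Pool.Agent.Helper873.Embed
  Pool.Agent.Helper873.Monomial Pool.Agent.Helper873.Mean Pool.Agent.Helper873.Alg
  Pool.Agent.H7.PM Pool.Agent.H7.PL Pool.Agent.H306R2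

/-- the rotation given by the values at the primes -/
noncomputable def vf (f : ℕ → ℂ) (j : ℕ) : UnitAddCircle :=
  ((-(Complex.arg (f (Nat.nth Nat.Prime j))) / (2 * Real.pi) : ℝ) : UnitAddCircle)

lemma zet_vf (f : ℕ → ℂ) (j : ℕ) (h : ‖f (Nat.nth Nat.Prime j)‖ = 1) :
    zet (vf f j) = f (Nat.nth Nat.Prime j) := by
  unfold vf
  rw [zet_coe]
  have h1 := Complex.norm_mul_exp_arg_mul_I (f (Nat.nth Nat.Prime j))
  rw [h, Complex.ofReal_one, one_mul] at h1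
  conv_rhs => rw [← h1]
  congr 1
  have : (Real.pi : ℂ) ≠ 0 := by exact_mod_cast Real.pi_ne_zero
  push_cast
  field_simp

/-- the value of the completely multiplicative function -/
lemma stf_vf (f : ℕ →* ℂ) (S : Finset ℕ) (h1 : ∀ p : ℕ, p.Prime → p ∉ S → ‖f p‖ = 1)
    (n : ℕ) (hn0 : n ≠ 0) (hn : ∀ p ∈ S, ¬ p ∣ n) : stf n (vf f) = f n := by
  have h2 := prod_ex n n hn0 le_rfl
  conv_rhs => rw [← h2]
  rw [map_prod]
  unfold stf mon
  refine Finset.prod_congr rfl fun j _ => ?_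
  rw [map_pow]
  by_cases hj : Nat.nth Nat.Prime j ∣ n
  · beta_reduce
    rw [zet_vf]
    exact h1 _ (Nat.prime_nth_prime j) fun hS => hn _ hS hj
  · have : ex n j = 0 := Nat.factorization_eq_zero_of_not_dvd hj
    rw [this, pow_zero, pow_zero]

/-- the twisted partial sums on the torus -/
noncomputable def SF (f : ℕ → ℂ) (N : ℕ) : Tor → ℂ :=
  DPol (Finset.Icc 1 N) fun n => f n * (n : ℂ) ^ (-(1 / 2) : ℂ)

lemma continuous_SF (f : ℕ → ℂ) (N : ℕ) : Continuous (SF f N) := continuous_DPol _ _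

lemma SF_eq (f : ℕ →* ℂ) (S : Finset ℕ) (h1 : ∀ p : ℕ, p.Prime → p ∉ S → ‖f p‖ = 1)
    (h0 : ∀ p ∈ S, f p = 0) (N : ℕ) (z : Tor) : SF f N z = TS S N (z + vf f) := by
  unfold SF TS DPol
  refine Finset.sum_congr rfl fun n hn => ?_
  have hn0 : n ≠ 0 := by have := (Finset.mem_Icc.1 hn).1; omega
  rw [stf_add]
  unfold tc
  by_cases h : ∀ p ∈ S, ¬ p ∣ n
  · rw [if_pos h, stf_vf f S h1 n hn0 h]
    ring
  · rw [if_neg h]
    push Not at h
    obtain ⟨p, hp, m, rfl⟩ := h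
    beta_reduce
    rw [map_mul, h0 p hp]
    ring

lemma mo_SF {k : ℝ} (hk : 0 < k) (f : ℕ →* ℂ) (S : Finset ℕ)
    (h1 : ∀ p : ℕ, p.Prime → p ∉ S → ‖f p‖ = 1) (h0 : ∀ p ∈ S, f p = 0) (N : ℕ) :
    mo k (SF f N) = mo k (TS S N) := by
  have h := int_add (vf f) (fun z => ‖TS S N z‖ ^ k) (continuous_norm_rpow (continuous_TS S N) hk.le)
  unfold mo
  rw [← h]
  refine integral_congr_ae (Eventually.of_forall fun z => ?_)
  simp only
  rw [SF_eq f S h1 h0]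

/-- the twisted partial sums -/
noncomputable def DF (f : ℕ → ℂ) (N : ℕ) (t : ℝ) : ℂ :=
  ∑ n ∈ Finset.Icc 1 N, f n * (n : ℂ) ^ (-(1 / 2 + t * Complex.I) : ℂ)

lemma SF_zt (f : ℕ → ℂ) (N : ℕ) (t : ℝ) : SF f N (zt t) = DF f N t := by
  unfold SF DPol DF
  refine Finset.sum_congr rfl fun n hn => ?_
  have hn0 : n ≠ 0 := by have := (Finset.mem_Icc.1 hn).1; omega
  have hnc : (n : ℂ) ≠ 0 := by exact_mod_cast hn0
  have h1 : stf n (zt t) = (n : ℂ) ^ (-(t * Complex.I)) := by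
    unfold stf
    have h2 : (fun j => zet (zt t j)) = vs (t * Complex.I) := funext fun k => zet_zt t k
    rw [h2, mon_vs n hn0]
  rw [h1, mul_assoc, ← Complex.cpow_add _ _ hnc]
  congr 2
  ring

theorem mean_DF {k : ℝ} (hk : 0 < k) (f : ℕ → ℂ) (N : ℕ) :
    Tendsto (fun T : ℝ => (1 / T) * ∫ t in (0 : ℝ)..T, ‖DF f N t‖ ^ k) atTop
      (𝓝 (mo k (SF f N))) := by
  have h := mean_pow hk (SF f N) (continuous_SF f N)
  simp_rw [SF_zt] at h
  exact h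

/-- the factor of the arithmetic constant at `p` -/
noncomputable def af (κ : ℝ) (p : ℕ) : ℝ :=
  (1 - 1 / (p : ℝ)) ^ (κ ^ 2) * ∑' m : ℕ, lc κ m ^ 2 * (1 / (p : ℝ)) ^ m

lemma lf_eq {k : ℝ} (hk : 0 < k) (p : ℕ) (hp : p.Prime) :
    lf k p = ∑' m : ℕ, lc (k / 2) m ^ 2 * (1 / (p : ℝ)) ^ m := by
  unfold lf
  rw [e1_series hk _ (norm_half_lt p hp)]
  have : ‖(p : ℂ) ^ (-(1 / 2) : ℂ)‖ ^ 2 = 1 / (p : ℝ) := by
    rw [norm_half_cpow p hp.pos, ← Real.rpow_natCast, ← Real.rpow_mul (Nat.cast_nonneg p)]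
    norm_num
    rw [Real.rpow_neg_one]
  rw [this]

/-- the arithmetic factor of the functions vanishing on `S` -/
noncomputable def aS (κ : ℝ) (S : Finset ℕ) : ℝ :=
  ∏' p : Nat.Primes, ((1 - 1 / ((p : ℕ) : ℝ)) ^ (κ ^ 2) *
    if (p : ℕ) ∈ S then 1 else ∑' m : ℕ, lc κ m ^ 2 * (1 / ((p : ℕ) : ℝ)) ^ m)

lemma aS_hasProd {k : ℝ} (hk : 0 < k) (S : Finset ℕ) (hS : ∀ q ∈ S, q.Prime) :
    HasProd (fun p : Nat.Primes => (1 - 1 / ((p : ℕ) : ℝ)) ^ ((k / 2) ^ 2) *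
      if (p : ℕ) ∈ S then 1 else ∑' m : ℕ, lc (k / 2) m ^ 2 * (1 / ((p : ℕ) : ℝ)) ^ m)
      (aF (k / 2) * ∏ p ∈ S, (lf k p)⁻¹) := by
  have h1 : HasProd (fun p : Nat.Primes => (1 - 1 / ((p : ℕ) : ℝ)) ^ ((k / 2) ^ 2) *
      ∑' m : ℕ, lc (k / 2) m ^ 2 * (1 / ((p : ℕ) : ℝ)) ^ m) (aF (k / 2)) :=
    (aF_multipliable (by positivity : 0 < k / 2)).hasProd
  -- the finitely many corrections
  have h2 : HasProd (fun p : Nat.Primes => if (p : ℕ) ∈ S then (lf k p)⁻¹ else 1)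
      (∏ p ∈ S, (lf k p)⁻¹) := by
    obtain ⟨S', hmem⟩ : ∃ S' : Finset Nat.Primes, ∀ p : Nat.Primes, p ∈ S' ↔ (p : ℕ) ∈ S :=
      ⟨S.preimage (fun p : Nat.Primes => (p : ℕ)) (Subtype.val_injective.injOn),
        fun p => Finset.mem_preimage⟩
    have h3 := hasProd_prod_of_ne_finset_one (L := SummationFilter.unconditional _)
      (f := fun p : Nat.Primes => if (p : ℕ) ∈ S then (lf k p)⁻¹ else 1)
      (s := S') (fun p hp => by rw [if_neg (fun h => hp ((hmem p).2 h))])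
    have e : ∏ p ∈ S', (if ((p : Nat.Primes) : ℕ) ∈ S then (lf k p)⁻¹ else 1) =
        ∏ p ∈ S, (lf k p)⁻¹ := by
      refine Finset.prod_bij (fun p _ => (p : ℕ)) (fun p hp => (hmem p).1 hp)
        (fun p _ q _ h => Subtype.ext h) (fun p hp => ⟨⟨p, hS p hp⟩, (hmem _).2 hp, rfl⟩)
        (fun p hp => by rw [if_pos ((hmem p).1 hp)])
    rw [e] at h3
    exact h3
  refine (h1.mul h2).congr_fun fun p => ?_
  by_cases h : (p : ℕ) ∈ S
  · rw [if_pos h, if_pos h, mul_one, ← lf_eq hk p p.2, mul_assoc,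
      mul_inv_cancel₀ (lf_pos k p p.2).ne', mul_one]
  · rw [if_neg h, if_neg h, mul_one]

lemma aS_eq {k : ℝ} (hk : 0 < k) (S : Finset ℕ) (hS : ∀ q ∈ S, q.Prime) :
    aS (k / 2) S = aF (k / 2) * ∏ p ∈ S, (lf k p)⁻¹ := (aS_hasProd hk S hS).tprod_eq

/-- **the main theorem** -/
theorem main_f {k : ℝ} (hk : 0 < k) : ∃ γ : ℝ, 0 < γ ∧ ∀ (S : Finset ℕ) (f : ℕ →* ℂ),
    (∀ p ∈ S, p.Prime) → (∀ p : ℕ, p.Prime → p ∉ S → ‖f p‖ = 1) → (∀ p ∈ S, f p = 0) →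
    Lm k (SF f) (γ * aS (k / 2) S) := by
  obtain ⟨c, hc, h⟩ := main_all hk
  have ha : 0 < aF (k / 2) := aF_pos (by positivity)
  refine ⟨c / aF (k / 2), by positivity, fun S f hS h1 h0 => ?_⟩
  have hL : Lm k SN c := by
    unfold Lm
    refine h.congr fun N => ?_
    rw [nrm_rpow hk]
    rfl
  have h2 := Lm_TS hk hL S hS
  have e : c / aF (k / 2) * aS (k / 2) S = c * ∏ p ∈ S, (lf k p)⁻¹ := by
    rw [aS_eq hk S hS]
    field_simp
  rw [e]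
  unfold Lm at h2 ⊢
  refine h2.congr fun N => ?_
  rw [mo_SF hk f S h1 h0]

end Pool.Agent.H7.PU
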