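import Pool.Agent.H7.PL.L13

set_option autoImplicit false
open MeasureTheory Metric Filter
open scoped ComplexConjugate ENNReal Topology

/-! Negligible sequences. -/

namespace Pool.Agent.H7.PU

open Pool.Agent.Helper873.OneVar Pool.Agent.Helper873.Product Pool.Agent.Helper873.Embed
  Pool.Agent.Helper873.Monomial Pool.Agent.H7.PM Pool.Agent.H7.PL

/-- negligible sequences -/
def Sm (k : ℝ) (G : ℕ → Tor → ℂ) : Prop :=
  Tendsto (fun N : ℕ => mo k (G N) / Real.log N ^ (k ^ 2 / 4)) atTop (𝓝 0)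

/-- the limit of the normalised moments -/
def Lm (k : ℝ) (G : ℕ → Tor → ℂ) (c : ℝ) : Prop :=
  Tendsto (fun N : ℕ => mo k (G N) / Real.log N ^ (k ^ 2 / 4)) atTop (𝓝 c)

lemma logpow_nonneg (k : ℝ) (N : ℕ) : 0 ≤ Real.log N ^ (k ^ 2 / 4) :=
  Real.rpow_nonneg (Real.log_natCast_nonneg N) _

lemma mo_add_le' {k : ℝ} (hk : 0 ≤ k) {G H : Tor → ℂ} (hG : Continuous G) (hH : Continuous H) :
    mo k (fun z => G z + H z) ≤ 2 ^ k * (mo k G + mo k H) := by
  unfold mo
  rw [← integral_add (integrable_tor' (continuous_norm_rpow hG hk))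
    (integrable_tor' (continuous_norm_rpow hH hk)), ← integral_const_mul]
  refine integral_mono (integrable_tor' (continuous_norm_rpow (hG.add hH) hk))
    (integrable_tor' (continuous_const.mul ((continuous_norm_rpow hG hk).add
      (continuous_norm_rpow hH hk)))) fun z => ?_
  simp only
  exact (Real.rpow_le_rpow (norm_nonneg _) (norm_add_le _ _) hk).trans
    (two_rpow _ _ (norm_nonneg _) (norm_nonneg _) hk)

lemma Sm.add {k : ℝ} (hk : 0 ≤ k) {G H : ℕ → Tor → ℂ} (hG : ∀ N, Continuous (G N))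
    (hH : ∀ N, Continuous (H N)) (h1 : Sm k G) (h2 : Sm k H) :
    Sm k (fun N z => G N z + H N z) := by
  unfold Sm at h1 h2
  have h3 := (h1.add h2).const_mul (2 ^ k)
  rw [add_zero, mul_zero] at h3
  refine squeeze_zero (fun N => div_nonneg (mo_nonneg _ _) (logpow_nonneg k N)) (fun N => ?_) h3
  rw [← add_div, mul_div_assoc']
  exact div_le_div_of_nonneg_right (mo_add_le' hk (hG N) (hH N)) (logpow_nonneg k N)

lemma mo_mul_le {k : ℝ} (hk : 0 ≤ k) {G A : Tor → ℂ} (hG : Continuous G) (hA : Continuous A)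
    {B : ℝ} (hB : ∀ z, ‖A z‖ ≤ B) : mo k (fun z => A z * G z) ≤ B ^ k * mo k G := by
  unfold mo
  rw [← integral_const_mul]
  refine integral_mono (integrable_tor' (continuous_norm_rpow (hA.mul hG) hk))
    (integrable_tor' (continuous_const.mul (continuous_norm_rpow hG hk))) fun z => ?_
  simp only
  have hB0 : 0 ≤ B := (norm_nonneg _).trans (hB z)
  rw [norm_mul, ← Real.mul_rpow hB0 (norm_nonneg _)]
  exact Real.rpow_le_rpow (by positivity) (mul_le_mul_of_nonneg_right (hB z) (norm_nonneg _)) hk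

lemma Sm.mul {k : ℝ} (hk : 0 ≤ k) {G : ℕ → Tor → ℂ} (hG : ∀ N, Continuous (G N))
    {A : Tor → ℂ} (hA : Continuous A) (h1 : Sm k G) :
    Sm k (fun N z => A z * G N z) := by
  obtain ⟨B, hB0, hB⟩ := exists_bdd hA
  unfold Sm at h1
  have h3 := h1.const_mul (B ^ k)
  rw [mul_zero] at h3
  refine squeeze_zero (fun N => div_nonneg (mo_nonneg _ _) (logpow_nonneg k N)) (fun N => ?_) h3
  rw [mul_div_assoc']
  exact div_le_div_of_nonneg_right (mo_mul_le hk (hG N) hA hB) (logpow_nonneg k N)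

lemma tendsto_div_nat (d : ℕ) (hd : 0 < d) : Tendsto (fun N : ℕ => N / d) atTop atTop :=
  Nat.tendsto_div_const_atTop hd.ne'

lemma Sm.comp_div {k : ℝ} {G : ℕ → Tor → ℂ} (h1 : Sm k G) (d : ℕ) (hd : 0 < d) :
    Sm k (fun N => G (N / d)) := by
  unfold Sm at h1
  have h2 := h1.comp (tendsto_div_nat d hd)
  refine squeeze_zero' (Eventually.of_forall fun N =>
    div_nonneg (mo_nonneg _ _) (logpow_nonneg k N)) ?_ h2
  filter_upwards [eventually_ge_atTop (2 * d)] with N hN
  simp only [Function.comp]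
  have h3 : 2 ≤ N / d := (Nat.le_div_iff_mul_le hd).2 hN
  have h4 : 0 < Real.log ((N / d : ℕ) : ℝ) := Real.log_pos (by exact_mod_cast h3)
  refine div_le_div_of_nonneg_left (mo_nonneg _ _) (Real.rpow_pos_of_pos h4 _) ?_
  refine Real.rpow_le_rpow h4.le ?_ (by positivity)
  refine Real.log_le_log (by exact_mod_cast (by omega : 0 < N / d)) ?_
  exact_mod_cast Nat.div_le_self N d

lemma Sm.neg {k : ℝ} {G : ℕ → Tor → ℂ} (h1 : Sm k G) : Sm k (fun N z => - G N z) := by
  unfold Sm at h1 ⊢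
  simpa [mo_neg] using h1

/-- negligible perturbations do not change the limit -/
lemma Lm.congr {k : ℝ} (hk : 0 < k) {G H : ℕ → Tor → ℂ} (hG : ∀ N, Continuous (G N))
    (hH : ∀ N, Continuous (H N)) {c : ℝ} (h : Lm k G c)
    (hd : Sm k (fun N z => G N z - H N z)) : Lm k H c := by
  unfold Lm at h
  unfold Sm at hd
  unfold Lm
  rcases le_or_gt k 1 with h1 | h1
  · have h2 : Tendsto (fun N : ℕ => mo k (H N) / Real.log N ^ (k ^ 2 / 4) -
        mo k (G N) / Real.log N ^ (k ^ 2 / 4)) atTop (𝓝 0) := by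
      refine squeeze_zero_norm (fun N => ?_) hd
      rw [← sub_div, Real.norm_eq_abs, abs_div, abs_of_nonneg (logpow_nonneg k N), abs_sub_comm]
      exact div_le_div_of_nonneg_right (abs_mo_sub_le hk h1 (hG N) (hH N)) (logpow_nonneg k N)
    have h3 := h2.add h
    simp only [sub_add_cancel, zero_add] at h3
    exact h3
  · have hi : 0 ≤ 1 / k := by positivity
    have a1 := h.rpow_const (p := 1 / k) (Or.inr hi)
    have a2 := hd.rpow_const (p := 1 / k) (Or.inr hi)
    rw [Real.zero_rpow (by positivity)] at a2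
    have e : ∀ (F : Tor → ℂ) (N : ℕ), (mo k F / Real.log N ^ (k ^ 2 / 4)) ^ (1 / k) =
        nrm k F / (Real.log N ^ (k ^ 2 / 4)) ^ (1 / k) := fun F N => by
      rw [Real.div_rpow (mo_nonneg _ _) (logpow_nonneg k N)]
      rfl
    have h2 : Tendsto (fun N : ℕ => (mo k (H N) / Real.log N ^ (k ^ 2 / 4)) ^ (1 / k) -
        (mo k (G N) / Real.log N ^ (k ^ 2 / 4)) ^ (1 / k)) atTop (𝓝 0) := by
      refine squeeze_zero_norm (fun N => ?_) a2
      have hp : 0 ≤ (Real.log N ^ (k ^ 2 / 4)) ^ (1 / k) := Real.rpow_nonneg (logpow_nonneg k N) _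
      rw [e, e, e, ← sub_div, Real.norm_eq_abs, abs_div, abs_of_nonneg hp, abs_sub_comm]
      exact div_le_div_of_nonneg_right (abs_nrm_sub_le h1.le (hG N) (hH N)) hp
    have h3 := h2.add a1
    simp only [sub_add_cancel, zero_add] at h3
    have h4 := h3.rpow_const (p := k) (Or.inr hk.le)
    have hc : 0 ≤ c := ge_of_tendsto' h fun N => div_nonneg (mo_nonneg _ _) (logpow_nonneg k N)
    rw [← Real.rpow_mul hc, one_div_mul_cancel hk.ne', Real.rpow_one] at h4
    refine h4.congr fun N => ?_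
    rw [← Real.rpow_mul (div_nonneg (mo_nonneg _ _) (logpow_nonneg k N)),
      one_div_mul_cancel hk.ne', Real.rpow_one]

/-- comparison with the moments of the Euler product -/
lemma Sm_of_ZZ {k : ℝ} {G : ℕ → Tor → ℂ}
    (h : ∀ ε : ℝ, 0 < ε → ∀ᶠ N in atTop, mo k (G N) ≤ ε * ZZ k N) : Sm k G := by
  have hZ := ZZ_lim k
  have e : (k / 2) ^ 2 = k ^ 2 / 4 := by ring
  rw [e] at hZ
  set A := Gk (k / 2) * Real.exp (k ^ 2 / 4 * -Real.log 2) with hA
  have hA0 : 0 < A := mul_pos (Gk_pos _) (Real.exp_pos _)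
  unfold Sm
  rw [Metric.tendsto_atTop']
  intro ε hε
  have h1 := h (ε / (2 * A)) (by positivity)
  have h2 := hZ.eventually (gt_mem_nhds (by linarith : A < 2 * A))
  obtain ⟨N0, hN0⟩ := eventually_atTop.1 (h1.and (h2.and (eventually_ge_atTop 2)))
  refine ⟨N0, fun N hN => ?_⟩
  obtain ⟨h3, h4, h5⟩ := hN0 N hN.le
  have hlog : 0 < Real.log N := Real.log_pos (by exact_mod_cast h5)
  have hL : 0 < Real.log N ^ (k ^ 2 / 4) := by positivity
  have e2 : dl N ^ (k ^ 2 / 4) = (Real.log N ^ (k ^ 2 / 4))⁻¹ := by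
    unfold dl
    rw [one_div, Real.inv_rpow hlog.le]
  rw [e2, ← div_eq_mul_inv, div_lt_iff₀ hL] at h4
  rw [Real.dist_eq, sub_zero, abs_of_nonneg (div_nonneg (mo_nonneg _ _) hL.le), div_lt_iff₀ hL]
  have h6 : ε / (2 * A) * ZZ k N < ε / (2 * A) * (2 * A * Real.log N ^ (k ^ 2 / 4)) :=
    mul_lt_mul_of_pos_left h4 (by positivity)
  have h7 : ε / (2 * A) * (2 * A * Real.log N ^ (k ^ 2 / 4)) = ε * Real.log N ^ (k ^ 2 / 4) := by
    field_simp
  linarith

end Pool.Agent.H7.PU
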