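import Pool.Agent.H7.PU.U1

set_option autoImplicit false
open MeasureTheory Metric Filter
open scoped ComplexConjugate ENNReal Topology

/-! Slow variation of the partial sums, `k > 1`. -/

namespace Pool.Agent.H7.PU

open Pool.Agent.Helper873.OneVar Pool.Agent.Helper873.Product Pool.Agent.Helper873.Embed
  Pool.Agent.Helper873.Monomial Pool.Agent.H7.PM Pool.Agent.H7.PL

/-- the cut weight -/
noncomputable def gJ {J : ℕ} (u : Fin J → ℝ) (y : ℝ) : ℂ :=
  if y ≤ Real.exp (-1) then 0 else fJ (fun m => bp 1 (u m)) y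

lemma pow_lip (x y : ℝ) (hx : 0 ≤ x) (hxy : x ≤ y) (hy : y ≤ 1) (j : ℕ) :
    y ^ j - x ^ j ≤ j * (y - x) := by
  induction j with
  | zero => simp
  | succ j ih =>
    have hy0 : 0 ≤ y := hx.trans hxy
    have h1 : y ^ j ≤ 1 := pow_le_one₀ hy0 hy
    have h2 : x ≤ 1 := hxy.trans hy
    have h3 : x ^ j ≤ y ^ j := by gcongr
    have e : y ^ (j + 1) - x ^ (j + 1) = y ^ j * (y - x) + x * (y ^ j - x ^ j) := by ring
    rw [e]
    push_cast
    have h4 : y ^ j * (y - x) ≤ 1 * (y - x) := mul_le_mul_of_nonneg_right h1 (by linarith)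
    have h5 : x * (y ^ j - x ^ j) ≤ 1 * (y ^ j - x ^ j) :=
      mul_le_mul_of_nonneg_right h2 (by linarith)
    linarith

lemma gJ_lip {J : ℕ} (u : Fin J → ℝ) : ∃ D : ℝ, 0 < D ∧ ∀ x y : ℝ, 0 ≤ x → x ≤ y → y ≤ 1 →
    ‖gJ u y - gJ u x‖ ≤ D * (y - x) := by
  obtain ⟨d, h, H⟩ := approx_fJ (fun m => bp 1 (u m)) 1 one_pos
  refine ⟨1 + ∑ j : Fin (d + 1), ‖h j‖ * ((j : ℕ) : ℝ), by
    have : 0 ≤ ∑ j : Fin (d + 1), ‖h j‖ * ((j : ℕ) : ℝ) :=
      Finset.sum_nonneg fun j _ => by positivity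
    linarith, fun x y hx hxy hy => ?_⟩
  have h1 := (H x y hx hxy hy).2
  have hP : ‖∑ j, h j * (y : ℂ) ^ (j : ℕ) - ∑ j, h j * (x : ℂ) ^ (j : ℕ)‖ ≤
      (∑ j : Fin (d + 1), ‖h j‖ * ((j : ℕ) : ℝ)) * (y - x) := by
    rw [← Finset.sum_sub_distrib, Finset.sum_mul]
    refine (norm_sum_le _ _).trans (Finset.sum_le_sum fun j _ => ?_)
    rw [← mul_sub, norm_mul, mul_assoc]
    refine mul_le_mul_of_nonneg_left ?_ (norm_nonneg _)
    have e : (y : ℂ) ^ (j : ℕ) - (x : ℂ) ^ (j : ℕ) = ((y ^ (j : ℕ) - x ^ (j : ℕ) : ℝ) : ℂ) := by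
      push_cast; rfl
    rw [e, Complex.norm_real, Real.norm_of_nonneg]
    · exact pow_lip x y hx hxy hy j
    · have : x ^ (j : ℕ) ≤ y ^ (j : ℕ) := by gcongr
      linarith
  have e2 : gJ u y - gJ u x =
      ((if y ≤ Real.exp (-1) then 0 else fJ (fun m => bp 1 (u m)) y) -
        ∑ j, h j * (y : ℂ) ^ (j : ℕ)) -
      ((if x ≤ Real.exp (-1) then 0 else fJ (fun m => bp 1 (u m)) x) -
        ∑ j, h j * (x : ℂ) ^ (j : ℕ)) +
      (∑ j, h j * (y : ℂ) ^ (j : ℕ) - ∑ j, h j * (x : ℂ) ^ (j : ℕ)) := by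
    unfold gJ; ring
  rw [e2]
  refine (norm_add_le _ _).trans ?_
  rw [one_mul] at h1
  linarith

lemma yn_antitone (N : ℕ) : Antitone (yn N) := antitone_nat_of_succ_le (yn_anti N)

/-- the multiplier of the piece `M < n ≤ N` -/
noncomputable def cM {J : ℕ} (u : Fin J → ℝ) (N M n : ℕ) : ℂ :=
  if n ≤ M then 0 else gJ u (yn N n)

lemma exp_neg_one_le_one : Real.exp (-1) ≤ 1 := Real.exp_le_one_iff.2 (by norm_num)

lemma gJ_max {J : ℕ} (u : Fin J → ℝ) (y : ℝ) : gJ u y = gJ u (max y (Real.exp (-1))) := by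
  rcases le_total y (Real.exp (-1)) with h | h
  · rw [max_eq_right h]
    unfold gJ
    rw [if_pos h, if_pos le_rfl]
  · rw [max_eq_left h]

lemma gJ_c {J : ℕ} (u : Fin J → ℝ) : gJ u (Real.exp (-1)) = 0 := by
  unfold gJ
  rw [if_pos le_rfl]

lemma cM_bound {J : ℕ} (u : Fin J → ℝ) {D : ℝ} (hD : 0 < D)
    (hL : ∀ x y : ℝ, 0 ≤ x → x ≤ y → y ≤ 1 → ‖gJ u y - gJ u x‖ ≤ D * (y - x)) (N M : ℕ)
    {b : ℝ} (hb : D * (max (yn N (M + 1)) (Real.exp (-1)) - Real.exp (-1)) ≤ b) :
    (∀ n, ‖cM u N M n‖ ≤ b) ∧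
    ∀ K, ∑ n ∈ Finset.range K, ‖cM u N M (n + 1) - cM u N M n‖ ≤ 2 * b := by
  set e := Real.exp (-1) with he
  have he0 : 0 < e := Real.exp_pos _
  have he1 : e ≤ 1 := exp_neg_one_le_one
  set w : ℕ → ℝ := fun n => max (yn N (max n (M + 1))) e with hw
  have hwa : Antitone w := fun m n hmn => max_le_max (yn_antitone N (max_le_max hmn le_rfl)) le_rfl
  have hw1 : ∀ n, w n ≤ 1 := fun n => max_le (yn_le_one N _) he1
  have hwe : ∀ n, e ≤ w n := fun n => le_max_right _ _
  have hb0 : 0 ≤ b := le_trans (mul_nonneg hD.le (by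
    have := le_max_right (yn N (M + 1)) e
    linarith)) hb
  have hc1 : ∀ n, M < n → cM u N M n = gJ u (w n) := by
    intro n hn
    unfold cM
    rw [if_neg (not_le.2 hn), gJ_max]
    simp only [hw]
    rw [max_eq_left (by omega : M + 1 ≤ n)]
  have hgb : ∀ n, ‖gJ u (w n)‖ ≤ b := by
    intro n
    have h1 := hL e (w n) he0.le (hwe n) (hw1 n)
    rw [he, gJ_c, sub_zero] at h1
    refine h1.trans (le_trans (mul_le_mul_of_nonneg_left ?_ hD.le) hb)
    have h2 : w n ≤ max (yn N (M + 1)) e := max_le_max (yn_antitone N (le_max_right _ _)) le_rfl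
    linarith
  refine ⟨fun n => ?_, fun K => ?_⟩
  · rcases le_or_gt n M with h | h
    · unfold cM
      rw [if_pos h, norm_zero]
      exact hb0
    · rw [hc1 n h]
      exact hgb n
  · have h1 : ∀ n, ‖cM u N M (n + 1) - cM u N M n‖ ≤ D * (w n - w (n + 1)) +
        if n = M then b else 0 := by
      intro n
      have hmono := hwa (Nat.le_succ n)
      have hnn : 0 ≤ D * (w n - w (n + 1)) := mul_nonneg hD.le (sub_nonneg.2 hmono)
      rcases lt_trichotomy n M with h | h | h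
      · have e1 : cM u N M (n + 1) = 0 := by unfold cM; rw [if_pos (by omega)]
        have e2 : cM u N M n = 0 := by unfold cM; rw [if_pos (by omega)]
        rw [e1, e2, sub_zero, norm_zero]
        split_ifs
        · linarith
        · linarith
      · have e2 : cM u N M n = 0 := by unfold cM; rw [if_pos (by omega)]
        rw [e2, sub_zero, if_pos h, hc1 (n + 1) (by omega)]
        have := hgb (n + 1)
        linarith
      · rw [hc1 n h, hc1 (n + 1) (by omega), norm_sub_rev, if_neg (by omega), add_zero]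
        exact hL _ _ (he0.le.trans (hwe _)) hmono (hw1 n)
    refine (Finset.sum_le_sum fun n _ => h1 n).trans ?_
    rw [Finset.sum_add_distrib, ← Finset.mul_sum, Finset.sum_range_sub', Finset.sum_ite_eq']
    have h3 : D * (w 0 - w K) ≤ b := by
      refine le_trans (mul_le_mul_of_nonneg_left ?_ hD.le) hb
      have h4 : w 0 ≤ max (yn N (M + 1)) e := max_le_max (yn_antitone N (le_max_right _ _)) le_rfl
      have h5 := hwe K
      linarith
    split_ifs <;> linarith

lemma yn_div {d : ℕ} (hd : 0 < d) {N : ℕ} (hN : 2 ≤ N) :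
    yn N (N / d + 1) ≤ Real.exp (-1 + dl N * Real.log d) := by
  unfold yn
  refine Real.exp_le_exp.2 ?_
  have hm : max (N / d + 1) 1 = N / d + 1 := max_eq_left (Nat.le_add_left 1 (N / d))
  rw [hm]
  have hd0 : (0 : ℝ) < d := by exact_mod_cast hd
  have hN0 : (0 : ℝ) < N := by exact_mod_cast (by omega : 0 < N)
  have h1 : (N : ℝ) / d ≤ ((N / d + 1 : ℕ) : ℝ) := by
    rw [div_le_iff₀ hd0]
    have := Nat.lt_mul_div_succ N hd
    have h2 : N ≤ (N / d + 1) * d := by nlinarith
    exact_mod_cast h2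
  have h2 : Real.log ((N : ℝ) / d) ≤ Real.log ((N / d + 1 : ℕ) : ℝ) :=
    Real.log_le_log (by positivity) h1
  rw [Real.log_div hN0.ne' hd0.ne'] at h2
  have h3 := mul_le_mul_of_nonneg_left h2 (dl_nonneg N)
  rw [mul_sub, log_dl hN] at h3
  linarith

theorem slow_gt {k : ℝ} (hk : 1 < k) (d : ℕ) (hd : 0 < d) :
    Sm k (fun N z => SN N z - SN (N / d) z) := by
  have hk0 : 0 < k := by linarith
  refine Sm_of_ZZ fun ε hε => ?_
  obtain ⟨C1, hC1, H1⟩ := mult k hk
  obtain ⟨C2, hC2, H2⟩ := proj_ser k hk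
  set ε' : ℝ := ε ^ (1 / k) with hε'
  have hε'0 : 0 < ε' := by positivity
  set η : ℝ := ε' / (12 * (C2 + 1)) with hη
  have hη0 : 0 < η := by positivity
  obtain ⟨J, hJ, u, hu⟩ := av_small k (η ^ k) hk (by positivity)
  obtain ⟨D, hD, hL⟩ := gJ_lip u
  set b : ℝ := ε' / (2 * (1 + 2 * C1)) with hb
  have hb0 : 0 < b := by positivity
  have hlim : Tendsto (fun N : ℕ => D * (Real.exp (-1 + dl N * Real.log d) - Real.exp (-1)))
      atTop (𝓝 0) := by
    have h1 : Tendsto (fun N : ℕ => -1 + dl N * Real.log d) atTop (𝓝 (-1 + 0 * Real.log d)) :=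
      (dl_tendsto.mul_const _).const_add _
    rw [zero_mul, add_zero] at h1
    have h2 := ((Real.continuous_exp.tendsto _).comp h1).sub_const (Real.exp (-1))
    have h3 := h2.const_mul D
    rwa [sub_self, mul_zero] at h3
  filter_upwards [hu 1 le_rfl one_le_two, hu 2 one_le_two le_rfl, eventually_ge_atTop 2,
    hlim.eventually (gt_mem_nhds hb0)] with N h1 h2 hN h4
  set M := N / d with hM
  have hMN : M ≤ N := Nat.div_le_self N d
  have hbM : D * (max (yn N (M + 1)) (Real.exp (-1)) - Real.exp (-1)) ≤ b := by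
    refine le_trans (mul_le_mul_of_nonneg_left (sub_le_sub_right (max_le (yn_div hd hN) ?_) _)
      hD.le) h4.le
    refine Real.exp_le_exp.2 ?_
    have := mul_nonneg (dl_nonneg N) (Real.log_natCast_nonneg d)
    linarith
  obtain ⟨hc1, hc2⟩ := cM_bound u hD hL N M hbM
  obtain ⟨hs1, hb1⟩ := H1 (cf N 1) (cM u N M) b (2 * b) (cf_zero N 1) (summable_cf N 1 one_re)
    hc1 hc2
  have hx0 : xc u N 0 = 0 := by unfold xc; simp [cf_zero]
  have hb2 := H2 (xc u N) hx0 (summable_xc u N) N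
  have hb3 := H2 (xc u N) hx0 (summable_xc u N) M
  have hs2 : ∀ M : ℕ, Summable fun n => ‖(if n ≤ M then 1 else 0) * xc u N n‖ := by
    intro M
    refine Summable.of_nonneg_of_le (fun _ => norm_nonneg _) (fun n => ?_) (summable_xc u N)
    rw [norm_mul]
    split_ifs
    · simp
    · simp
  have hid : (fun z => SN N z - SN M z) = fun z =>
      DSer (fun n => cM u N M n * cf N 1 n) z +
      (DSer (fun n => (if n ≤ N then 1 else 0) * xc u N n) z -
        DSer (fun n => (if n ≤ M then 1 else 0) * xc u N n) z) := by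
    funext z
    have hsN : ∀ M : ℕ, Summable fun n : ℕ =>
        ‖(if n ∈ Finset.Icc 1 M then (n : ℂ) ^ (-(1 / 2) : ℂ) else 0)‖ := fun M => by
      refine summable_of_ne_finset_zero (s := Finset.Icc 1 M) fun n hn => ?_
      rw [if_neg hn, norm_zero]
    rw [SN_eq, SN_eq, ← DSer_sub (hsN N) (hsN M), ← DSer_sub (hs2 N) (hs2 M), ← DSer_add hs1]
    · congr 1
      funext n
      have hkey := key_id hJ u hN n
      by_cases hnM : n ≤ M
      · have hnN : n ≤ N := hnM.trans hMN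
        unfold cM
        rw [if_pos hnM, zero_mul, zero_add, if_pos hnN, if_pos hnM, sub_self]
        rcases eq_or_ne n 0 with rfl | hn0
        · simp
        · rw [if_pos (Finset.mem_Icc.2 ⟨by omega, hnN⟩), if_pos (Finset.mem_Icc.2 ⟨by omega, hnM⟩),
            sub_self]
      · have hni : n ∉ Finset.Icc 1 M := fun h => hnM (Finset.mem_Icc.1 h).2
        rw [if_neg hni, if_neg hnM, sub_zero, zero_mul, sub_zero, hkey]
        unfold cM gJ
        rw [if_neg hnM]
    · exact Summable.of_nonneg_of_le (fun _ => norm_nonneg _) (fun n => norm_sub_le _ _)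
        ((hs2 N).add (hs2 M))
  have hF := (nrm_FF_pos (k := k) N)
  have hX : nrm k (DSer (xc u N)) ≤ 3 * η * nrm k (FF N 1) := by
    have e : DSer (xc u N) = fun z => 2 * av J 1 u N z + (-1) * av J 2 u N z := by
      funext z
      rw [DSer_xc]; ring
    rw [e]
    refine (nrm_add_le hk.le (cmul_cont _ (continuous_av J 1 le_rfl u N))
      (cmul_cont _ (continuous_av J 2 one_le_two u N))).trans ?_
    rw [nrm_const_mul hk0, nrm_const_mul hk0]
    have b1 := nrm_av_le hk0 hη0 h1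
    have b2 := nrm_av_le hk0 hη0 h2
    have n2 : ‖(2 : ℂ)‖ = 2 := by simp
    have n1 : ‖(-1 : ℂ)‖ = 1 := by simp
    rw [n2, n1]
    linarith
  have hnrm : nrm k (fun z => SN N z - SN M z) ≤ ε' * nrm k (FF N 1) := by
    rw [hid]
    have hcc : Continuous fun z => DSer (fun n => (if n ≤ N then 1 else 0) * xc u N n) z -
        DSer (fun n => (if n ≤ M then 1 else 0) * xc u N n) z :=
      (continuous_DSer (hs2 N)).sub (continuous_DSer (hs2 M))
    refine (nrm_add_le hk.le (continuous_DSer hs1) hcc).trans ?_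
    have h5 : nrm k (fun z => DSer (fun n => (if n ≤ N then 1 else 0) * xc u N n) z -
        DSer (fun n => (if n ≤ M then 1 else 0) * xc u N n) z) ≤
        nrm k (DSer (fun n => (if n ≤ N then 1 else 0) * xc u N n)) +
        nrm k (DSer (fun n => (if n ≤ M then 1 else 0) * xc u N n)) := by
      have hcn : Continuous fun z => - DSer (fun n => (if n ≤ M then 1 else 0) * xc u N n) z :=
        (continuous_DSer (hs2 M)).neg
      have h6 := nrm_add_le hk.le (continuous_DSer (hs2 N)) hcn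
      have h7 := nrm_neg (p := k) (DSer (fun n => (if n ≤ M then 1 else 0) * xc u N n))
      rw [h7] at h6
      simp_rw [sub_eq_add_neg]
      exact h6
    rw [← FF_eq N 1 one_re] at hb1
    have t1 : (b + C1 * (2 * b)) * nrm k (FF N 1) = ε' / 2 * nrm k (FF N 1) := by
      rw [hb]; field_simp
    have t2 : C2 * (3 * η * nrm k (FF N 1)) ≤ ε' / 4 * nrm k (FF N 1) := by
      have : C2 * (3 * η) ≤ ε' / 4 := by
        rw [hη]
        have : C2 * (3 * (ε' / (12 * (C2 + 1)))) = (C2 * ε') / (4 * (C2 + 1)) := by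
          field_simp; ring
        rw [this, div_le_iff₀ (by positivity)]
        nlinarith
      calc C2 * (3 * η * nrm k (FF N 1)) = (C2 * (3 * η)) * nrm k (FF N 1) := by ring
        _ ≤ _ := mul_le_mul_of_nonneg_right this hF.le
    have t3 := hb2.trans (mul_le_mul_of_nonneg_left hX hC2)
    have t4 := hb3.trans (mul_le_mul_of_nonneg_left hX hC2)
    linarith
  have h9 := Real.rpow_le_rpow (nrm_nonneg _ _) hnrm hk0.le
  rw [nrm_rpow hk0, Real.mul_rpow hε'0.le hF.le, nrm_FF, ← Real.rpow_mul (ZZ_pos k N).le,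
    one_div_mul_cancel hk0.ne', Real.rpow_one, hε', ← Real.rpow_mul hε.le,
    one_div_mul_cancel hk0.ne', Real.rpow_one] at h9
  exact h9

end Pool.Agent.H7.PU
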