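import Pool.Agent.H7.PU.U2

set_option autoImplicit false
open MeasureTheory Metric Filter
open scoped ComplexConjugate ENNReal Topology

/-! Slow variation of the partial sums, `k ≤ 1`. -/

namespace Pool.Agent.H7.PU

open Pool.Agent.Helper873.OneVar Pool.Agent.Helper873.Product Pool.Agent.Helper873.Embed
  Pool.Agent.Helper873.Monomial Pool.Agent.H7.PM Pool.Agent.H7.PL

lemma SK_eq' (N M : ℕ) (h : M ≤ N) : SK (KK N) M = SN M := by
  funext z
  unfold SK SN DPol
  refine Finset.sum_congr rfl fun n hn => ?_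
  obtain ⟨h1, h2⟩ := Finset.mem_Icc.1 hn
  unfold cq
  rw [if_pos (factored_of_le (by omega) (h2.trans (h.trans (KK_ge' N))))]

/-- the smooth cut is close to the sharp cut, at the scale of `N` -/
lemma SN_W' {k : ℝ} (hk : 0 < k) (hk1 : k ≤ 1) : ∃ C : ℝ, 0 < C ∧ ∀ c : ℕ, 1 ≤ c →
    ∀ᶠ N in atTop, ∀ M : ℕ, 1 ≤ M → M ≤ N → mo k (fun z => SN M z -
      W (Finset.range (KK N)) (c * dl N) ((M : ℝ) ^ (c * dl N)) z) ≤
      C * ((c : ℝ) * dl N)⁻¹ ^ (k ^ 2 / 4) := by
  obtain ⟨C, hC, h⟩ := all_scales hk hk1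
  refine ⟨C, hC, fun c hc => ?_⟩
  have hc0 : (0 : ℝ) < c := by exact_mod_cast hc
  have h1 : Tendsto (fun N => (c : ℝ) * dl N) atTop (𝓝 ((c : ℝ) * 0)) := dl_tendsto.const_mul _
  rw [mul_zero] at h1
  filter_upwards [h1.eventually (gt_mem_nhds (by norm_num : (0 : ℝ) < 1 / 24)),
    eventually_ge_atTop 3] with N hN hN3 M' hM1 hMN
  have hδ : 0 < dl N := dl_pos (by omega)
  obtain ⟨M, hM⟩ := exists_Sc ((c : ℝ) * dl N)
  have hMK : M ≤ KK N := by
    by_contra hcon
    have h2 := (hM (KK N)).1 (not_le.1 hcon)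
    have h3 : (N : ℝ) < Nat.nth Nat.Prime (KK N) := by
      have := Nat.add_two_le_nth_prime (KK N)
      have := KK_ge' N
      exact_mod_cast (by omega : N < Nat.nth Nat.Prime (KK N))
    have hN0 : (0 : ℝ) < N := by exact_mod_cast (by omega : 0 < N)
    have h4 := Real.log_lt_log hN0 h3
    have h5 : 1 / ((c : ℝ) * dl N) ≤ Real.log N := by
      rw [div_le_iff₀ (by positivity)]
      have h6 := log_dl (N := N) (by omega)
      have h7 : (1 : ℝ) ≤ c := by exact_mod_cast hc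
      calc (1 : ℝ) ≤ c * 1 := by linarith
        _ = c * (dl N * Real.log N) := by rw [h6]
        _ = _ := by ring
    linarith
  have h2 := h M (KK N) M' (c * dl N) (by positivity) hN.le hM hMK hM1
  rw [SK_eq' N M' hMN] at h2
  rw [one_div] at h2
  exact h2

lemma pow_sub_le (U V : ℝ) (hV : 0 ≤ V) (hVU : V ≤ U) (hU : 1 ≤ U) (j : ℕ) :
    U ^ j - V ^ j ≤ (2 * U) ^ j * (U - V) := by
  have hU0 : 0 ≤ U := by linarith
  have key : ∀ j : ℕ, U ^ j - V ^ j ≤ (j : ℝ) * U ^ j * (U - V) := by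
    intro j
    induction j with
    | zero => simp
    | succ j ih =>
      have e : U ^ (j + 1) - V ^ (j + 1) = U ^ j * (U - V) + V * (U ^ j - V ^ j) := by ring
      have h1 : U ^ j ≤ U ^ (j + 1) := pow_le_pow_right₀ hU (Nat.le_succ j)
      have h2 : V ^ j ≤ U ^ j := by gcongr
      have h3 : V * (U ^ j - V ^ j) ≤ U * (U ^ j - V ^ j) :=
        mul_le_mul_of_nonneg_right hVU (by linarith)
      have h4 : U * (U ^ j - V ^ j) ≤ U * ((j : ℝ) * U ^ j * (U - V)) :=
        mul_le_mul_of_nonneg_left ih hU0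
      have h5 : U ^ j * (U - V) ≤ U ^ (j + 1) * (U - V) :=
        mul_le_mul_of_nonneg_right h1 (by linarith)
      rw [e]
      push_cast
      calc _ ≤ U ^ (j + 1) * (U - V) + U * ((j : ℝ) * U ^ j * (U - V)) := by linarith
        _ = ((j : ℝ) + 1) * U ^ (j + 1) * (U - V) := by ring
  refine (key j).trans (mul_le_mul_of_nonneg_right ?_ (by linarith))
  rw [mul_pow]
  refine mul_le_mul_of_nonneg_right ?_ (by positivity)
  exact_mod_cast (Nat.lt_two_pow_self (n := j)).le

lemma W_diff {k : ℝ} (hk : 0 < k) (hk1 : k ≤ 1) (c : ℕ) (hc1 : 1 ≤ c) (d : ℕ) (hd : 0 < d)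
    (ε : ℝ) (hε : 0 < ε) :
    ∀ᶠ N : ℕ in atTop, mo k (fun z =>
      W (Finset.range (KK N)) (c * dl N) ((N : ℝ) ^ (c * dl N)) z -
      W (Finset.range (KK N)) (c * dl N) (((N / d : ℕ) : ℝ) ^ (c * dl N)) z) ≤
      ε * ZZ k N := by
  obtain ⟨CF, hCF, hF⟩ := mo_FF_le k
  set E : ℝ := Real.exp (4 * Real.exp c) with hE
  have hE0 : 0 < E := Real.exp_pos _
  have hgeo : Summable fun j : ℕ => (E * (1 / 2 : ℝ) ^ j) ^ k := by
    have h : Summable fun j : ℕ => E ^ k * ((1 / 2 : ℝ) ^ k) ^ j := by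
      refine Summable.mul_left _ (summable_geometric_of_lt_one (by positivity) ?_)
      exact Real.rpow_lt_one (by norm_num) (by norm_num) hk
    refine h.congr fun j => ?_
    rw [Real.mul_rpow hE0.le (by positivity), ← Real.rpow_natCast, ← Real.rpow_natCast,
      ← Real.rpow_mul (by norm_num), ← Real.rpow_mul (by norm_num), mul_comm k]
  set S : ℝ := ∑' j : ℕ, (E * (1 / 2 : ℝ) ^ j) ^ k with hS
  have hS0 : 0 ≤ S := tsum_nonneg fun j => by positivity
  have hlim : Tendsto (fun N : ℕ => (Real.exp c * (1 - Real.exp (-(c * Real.log (2 * d) * dl N)))) ^ k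
      * (S * CF)) atTop (𝓝 0) := by
    have h1 : Tendsto (fun N : ℕ => -(c * Real.log (2 * d) * dl N)) atTop
        (𝓝 (-(c * Real.log (2 * d) * 0))) := (dl_tendsto.const_mul _).neg
    rw [mul_zero, neg_zero] at h1
    have h2 := ((Real.continuous_exp.tendsto _).comp h1)
    rw [Real.exp_zero] at h2
    have h3 := ((h2.const_sub 1).const_mul (Real.exp c)).rpow_const (p := k) (Or.inr hk.le)
    rw [sub_self, mul_zero, Real.zero_rpow hk.ne'] at h3
    have h4 := h3.mul_const (S * CF)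
    rwa [zero_mul] at h4
  filter_upwards [hlim.eventually (gt_mem_nhds hε), eventually_ge_atTop 2,
    eventually_ge_atTop d] with N hN1 hN hNd
  have hδ := dl_nonneg N
  have hcδ : 0 ≤ (c : ℝ) * dl N := by positivity
  set K := KK N with hK
  set U : ℝ := (N : ℝ) ^ (c * dl N) with hU
  set V : ℝ := ((N / d : ℕ) : ℝ) ^ (c * dl N) with hV
  have hUe : U = Real.exp c := dl_rpow_exp hN c
  have hU1 : 1 ≤ U := by rw [hUe]; exact Real.one_le_exp (Nat.cast_nonneg c)
  have hM1 : 1 ≤ N / d := (Nat.one_le_div_iff hd).2 hNd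
  have hM0 : (0 : ℝ) < ((N / d : ℕ) : ℝ) := by exact_mod_cast hM1
  have hV0 : 0 ≤ V := by positivity
  have hVU : V ≤ U := by
    rw [hU, hV]
    exact Real.rpow_le_rpow hM0.le (by exact_mod_cast Nat.div_le_self N d) hcδ
  have hd0 : (0 : ℝ) < d := by exact_mod_cast hd
  have hN0 : (0 : ℝ) < N := by exact_mod_cast (by omega : 0 < N)
  have hUV : U - V ≤ Real.exp c * (1 - Real.exp (-(c * Real.log (2 * d) * dl N))) := by
    have h1 : (N : ℝ) / (2 * d) ≤ ((N / d : ℕ) : ℝ) := by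
      rw [div_le_iff₀ (by positivity)]
      have h2 := Nat.lt_mul_div_succ N hd
      have h3 : N ≤ (N / d) * (2 * d) := by nlinarith
      exact_mod_cast h3
    have h2 : Real.log N - Real.log (2 * d) ≤ Real.log ((N / d : ℕ) : ℝ) := by
      rw [← Real.log_div hN0.ne' (by positivity)]
      exact Real.log_le_log (by positivity) h1
    have h3 : Real.exp (c - c * Real.log (2 * d) * dl N) ≤ V := by
      rw [hV, Real.rpow_def_of_pos hM0]
      refine Real.exp_le_exp.2 ?_
      have h4 := mul_le_mul_of_nonneg_right h2 hcδ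
      have h5 := log_dl hN
      calc (c : ℝ) - c * Real.log (2 * d) * dl N =
          c * (dl N * Real.log N) - c * Real.log (2 * d) * dl N := by rw [h5, mul_one]
        _ = (Real.log N - Real.log (2 * d)) * (c * dl N) := by ring
        _ ≤ _ := h4
    rw [sub_eq_add_neg (c : ℝ), Real.exp_add] at h3
    rw [hUe]
    linarith
  set term : ℕ → Tor → ℂ := fun j z => hh j * ((U : ℂ) ^ j - (V : ℂ) ^ j) *
    FF N (((c * j : ℕ) : ℝ) : ℂ) z with hterm
  have hsp : ∀ j : ℕ, EP (Finset.range K) (sp (c * dl N) j) = FF N (((c * j : ℕ) : ℝ) : ℂ) := by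
    intro j
    rw [FF_EP]
    unfold sp
    congr 1
    push_cast
    ring
  set A : ℝ := ∑' n, ‖cq (Finset.range K) (1 / 2) n‖ with hA
  have hA0 : 0 ≤ A := tsum_nonneg fun n => norm_nonneg _
  have hnF : ∀ (j : ℕ) z, ‖FF N (((c * j : ℕ) : ℝ) : ℂ) z‖ ≤ A := by
    intro j z
    rw [← hsp]
    exact norm_EP_sp _ hcδ j z
  have hcoef : ∀ j : ℕ, ‖hh j * ((U : ℂ) ^ j - (V : ℂ) ^ j)‖ ≤ (U - V) * (E * (1 / 2 : ℝ) ^ j) := by
    intro j
    have e : (U : ℂ) ^ j - (V : ℂ) ^ j = ((U ^ j - V ^ j : ℝ) : ℂ) := by push_cast; rfl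
    have h0 : V ^ j ≤ U ^ j := by gcongr
    rw [norm_mul, e, Complex.norm_real, Real.norm_of_nonneg (by linarith)]
    have h1 := pow_sub_le U V hV0 hVU hU1 j
    have h2 := norm_hh j
    have h3 : (2 * U) ^ j * (1 / (j.factorial : ℝ)) ≤ E * (1 / 2 : ℝ) ^ j := by
      have h := Real.pow_div_factorial_le_exp (4 * Real.exp c) (by positivity) j
      have h4 : (0 : ℝ) < 2 ^ j := by positivity
      rw [one_div_pow, mul_one_div, mul_one_div, le_div_iff₀ h4, hUe]
      calc (2 * Real.exp c) ^ j / (j.factorial : ℝ) * 2 ^ j =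
          (4 * Real.exp c) ^ j / (j.factorial : ℝ) := by
            rw [div_mul_eq_mul_div, ← mul_pow]
            congr 2
            ring
        _ ≤ _ := h
    calc ‖hh j‖ * (U ^ j - V ^ j) ≤ (1 / (j.factorial : ℝ)) * ((2 * U) ^ j * (U - V)) :=
          mul_le_mul h2 h1 (by linarith) (by positivity)
      _ = (U - V) * ((2 * U) ^ j * (1 / (j.factorial : ℝ))) := by ring
      _ ≤ _ := mul_le_mul_of_nonneg_left h3 (by linarith)
  have htn : ∀ j z, ‖term j z‖ ≤ ((U - V) * (E * (1 / 2 : ℝ) ^ j)) *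
      ‖FF N (((c * j : ℕ) : ℝ) : ℂ) z‖ := by
    intro j z
    simp only [hterm]
    rw [norm_mul]
    exact mul_le_mul_of_nonneg_right (hcoef j) (norm_nonneg _)
  have hgeo1 : Summable fun j : ℕ => (U - V) * (E * (1 / 2 : ℝ) ^ j) :=
    (Summable.mul_left _ summable_geometric_two).mul_left _
  have hW : ∀ z, W (Finset.range K) (c * dl N) U z - W (Finset.range K) (c * dl N) V z =
      ∑' j, term j z := by
    intro z
    have hb : ∀ X : ℝ, 0 ≤ X → X ≤ U → Summable fun j => hh j * (X : ℂ) ^ j *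
        EP (Finset.range K) (sp (c * dl N) j) z := by
      intro X hX hXU
      have hE' : Summable fun j : ℕ => (E * (1 / 2 : ℝ) ^ j) * A :=
        (Summable.mul_left _ summable_geometric_two).mul_right A
      refine Summable.of_norm (Summable.of_nonneg_of_le (fun _ => norm_nonneg _) (fun j => ?_) hE')
      rw [norm_mul, norm_mul, norm_pow, Complex.norm_real, Real.norm_of_nonneg hX, hsp]
      refine mul_le_mul ?_ (hnF j z) (norm_nonneg _) (by positivity)
      have h2 := norm_hh j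
      have h3 : X ^ j ≤ (2 * U) ^ j := by
        refine pow_le_pow_left₀ hX (by linarith) j
      have h4 : (2 * U) ^ j * (1 / (j.factorial : ℝ)) ≤ E * (1 / 2 : ℝ) ^ j := by
        have h := Real.pow_div_factorial_le_exp (4 * Real.exp c) (by positivity) j
        have h4 : (0 : ℝ) < 2 ^ j := by positivity
        rw [one_div_pow, mul_one_div, mul_one_div, le_div_iff₀ h4, hUe]
        calc (2 * Real.exp c) ^ j / (j.factorial : ℝ) * 2 ^ j =
            (4 * Real.exp c) ^ j / (j.factorial : ℝ) := by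
              rw [div_mul_eq_mul_div, ← mul_pow]
              congr 2
              ring
          _ ≤ _ := h
      calc ‖hh j‖ * X ^ j ≤ (1 / (j.factorial : ℝ)) * (2 * U) ^ j :=
            mul_le_mul h2 h3 (by positivity) (by positivity)
        _ = (2 * U) ^ j * (1 / (j.factorial : ℝ)) := by ring
        _ ≤ _ := h4
    rw [W_series _ hcδ (by linarith), W_series _ hcδ hV0,
      ← (hb U (by linarith) le_rfl).tsum_sub (hb V hV0 hVU)]
    refine tsum_congr fun j => ?_
    simp only [hterm]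
    rw [hsp]
    ring
  simp_rw [hW]
  have hcF : ∀ j : ℕ, Continuous (FF N (((c * j : ℕ) : ℝ) : ℂ)) := fun j =>
    continuous_FF N _ (by rw [Complex.ofReal_re]; positivity)
  have hv0 : ∀ j : ℕ, 0 ≤ (U - V) * (E * (1 / 2 : ℝ) ^ j) := fun j => by
    have : 0 ≤ U - V := by linarith
    positivity
  have e1 : ∀ j : ℕ, ((U - V) * (E * (1 / 2 : ℝ) ^ j)) ^ k =
      (U - V) ^ k * (E * (1 / 2 : ℝ) ^ j) ^ k := fun j =>
    Real.mul_rpow (by linarith) (by positivity)
  have hm := mo_tsum hk hk1 term (fun j => by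
    simp only [hterm]
    exact continuous_const.mul (hcF j))
    (fun j => (U - V) * (E * (1 / 2 : ℝ) ^ j)) hv0 A hA0
    (fun j z => (htn j z).trans (mul_le_mul_of_nonneg_left (hnF _ z) (hv0 j)))
    hgeo1 (by
      simp_rw [e1]
      exact hgeo.mul_left _) (CF * ZZ k N) (fun j => by
      have hR : 0 ≤ ((U - V) * (E * (1 / 2 : ℝ) ^ j)) ^ k * (CF * ZZ k N) := by
        have := ZZ_pos k N
        have := hv0 j
        positivity
      rcases Nat.eq_zero_or_pos j with rfl | hj0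
      · have e0 : term 0 = fun _ => 0 := by
          funext z
          simp [hterm, hh]
        rw [e0]
        have : mo k (fun _ : Tor => (0 : ℂ)) = 0 := by
          unfold mo
          simp [Real.zero_rpow hk.ne']
        rw [this]
        exact hR
      have hj1 : (1 : ℝ) ≤ ((c * j : ℕ) : ℝ) := by
        exact_mod_cast Nat.mul_pos hc1 hj0
      have h5 := hF N _ hj1
      have h6 : mo k (term j) ≤ ((U - V) * (E * (1 / 2 : ℝ) ^ j)) ^ k *
          mo k (FF N (((c * j : ℕ) : ℝ) : ℂ)) := by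
        unfold mo
        rw [← integral_const_mul]
        have hct : Continuous (term j) := by
          simp only [hterm]
          exact continuous_const.mul (hcF j)
        refine integral_mono (integrable_tor' (continuous_norm_rpow hct hk.le))
          (integrable_tor' (continuous_const.mul (continuous_norm_rpow (hcF j) hk.le)))
          fun z => ?_
        simp only
        rw [← Real.mul_rpow (hv0 j) (norm_nonneg _)]
        exact Real.rpow_le_rpow (norm_nonneg _) (htn _ z) hk.le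
      exact h6.trans (mul_le_mul_of_nonneg_left h5 (Real.rpow_nonneg (hv0 j) _)))
  simp_rw [e1] at hm
  rw [tsum_mul_left] at hm
  refine hm.trans ?_
  have h7 : (U - V) ^ k ≤ (Real.exp c * (1 - Real.exp (-(c * Real.log (2 * d) * dl N)))) ^ k :=
    Real.rpow_le_rpow (by linarith) hUV hk.le
  have hZ := ZZ_pos k N
  calc (U - V) ^ k * S * (CF * ZZ k N) = (U - V) ^ k * (S * CF) * ZZ k N := by ring
    _ ≤ (Real.exp c * (1 - Real.exp (-(c * Real.log (2 * d) * dl N)))) ^ k * (S * CF) * ZZ k N := by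
        gcongr
    _ ≤ ε * ZZ k N := mul_le_mul_of_nonneg_right hN1.le hZ.le

theorem slow_le {k : ℝ} (hk : 0 < k) (hk1 : k ≤ 1) (d : ℕ) (hd : 0 < d) :
    Sm k (fun N z => SN N z - SN (N / d) z) := by
  refine Sm_of_ZZ fun ε hε => ?_
  obtain ⟨C, hC, hSW⟩ := SN_W' hk hk1
  have hZ := ZZ_lim k
  set A := Gk (k / 2) * Real.exp ((k / 2) ^ 2 * -Real.log 2) with hA
  have hA0 : 0 < A := mul_pos (Gk_pos _) (Real.exp_pos _)
  have hZev := hZ.eventually (lt_mem_nhds (half_lt_self hA0))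
  have hq : 0 < k ^ 2 / 4 := by positivity
  obtain ⟨c, hc1, hc⟩ : ∃ c : ℕ, 1 ≤ c ∧ C * (c : ℝ) ^ (-(k ^ 2 / 4)) ≤ ε / 4 * (A / 2) := by
    have h1 : Tendsto (fun c : ℕ => C * (c : ℝ) ^ (-(k ^ 2 / 4))) atTop (𝓝 (C * 0)) :=
      ((tendsto_rpow_neg_atTop hq).comp tendsto_natCast_atTop_atTop).const_mul C
    rw [mul_zero] at h1
    obtain ⟨c, h2, h3⟩ := ((h1.eventually (gt_mem_nhds (by positivity :
      (0 : ℝ) < ε / 4 * (A / 2)))).and (eventually_ge_atTop 1)).exists
    exact ⟨c, h3, h2.le⟩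
  have hc0 : (0 : ℝ) < c := by exact_mod_cast hc1
  filter_upwards [hSW c hc1, hZev, eventually_ge_atTop 2, eventually_ge_atTop d,
    W_diff hk hk1 c hc1 d hd (ε / 2) (by positivity)] with N h1 h2 h3 hNd hWd
  have hδ := dl_pos h3
  have hZp := ZZ_pos k N
  have hM1 : 1 ≤ N / d := (Nat.one_le_div_iff hd).2 hNd
  have cW : ∀ X : ℕ, Continuous (W (Finset.range (KK N)) (c * dl N) ((X : ℝ) ^ (c * dl N))) :=
    fun X => continuous_W _ (by positivity)
  have a1 := h1 N (by omega) le_rfl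
  have a2 := h1 (N / d) hM1 (Nat.div_le_self N d)
  have h5 : C * ((c : ℝ) * dl N)⁻¹ ^ (k ^ 2 / 4) ≤ ε / 4 * ZZ k N := by
    have e : (k / 2) ^ 2 = k ^ 2 / 4 := by ring
    rw [e] at h2
    have hdp : 0 < dl N ^ (k ^ 2 / 4) := Real.rpow_pos_of_pos hδ _
    rw [mul_inv, Real.mul_rpow (by positivity) (by positivity), Real.inv_rpow hc0.le,
      Real.inv_rpow hδ.le, ← Real.rpow_neg hc0.le]
    calc C * ((c : ℝ) ^ (-(k ^ 2 / 4)) * (dl N ^ (k ^ 2 / 4))⁻¹) =
        (C * (c : ℝ) ^ (-(k ^ 2 / 4))) * (dl N ^ (k ^ 2 / 4))⁻¹ := by ring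
      _ ≤ (ε / 4 * (A / 2)) * (dl N ^ (k ^ 2 / 4))⁻¹ :=
        mul_le_mul_of_nonneg_right hc (by positivity)
      _ ≤ (ε / 4 * (ZZ k N * dl N ^ (k ^ 2 / 4))) * (dl N ^ (k ^ 2 / 4))⁻¹ := by
        gcongr
      _ = ε / 4 * ZZ k N := by field_simp
  have t1 := mo_tri hk hk1 (continuous_SN N) (continuous_SN (N / d)) (cW N)
  have t2 := mo_tri hk hk1 (cW N) (continuous_SN (N / d)) (cW (N / d))
  rw [mo_sub_comm k (W (Finset.range (KK N)) (c * dl N) (((N / d : ℕ) : ℝ) ^ (c * dl N)))] at t2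
  linarith

/-- **slow variation** -/
theorem slow {k : ℝ} (hk : 0 < k) (d : ℕ) (hd : 0 < d) :
    Sm k (fun N z => SN N z - SN (N / d) z) := by
  rcases le_or_gt k 1 with h | h
  · exact slow_le hk h d hd
  · exact slow_gt h d hd

end Pool.Agent.H7.PU
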