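import Pool.Agent.H7.PU.U3

set_option autoImplicit false
open MeasureTheory Metric Filter
open scoped ComplexConjugate ENNReal Topology

/-! Removing finitely many primes. -/

namespace Pool.Agent.H7.PU

open Pool.Agent.Helper873.OneVar Pool.Agent.Helper873.Product Pool.Agent.Helper873.Embed
  Pool.Agent.Helper873.Monomial Pool.Agent.H7.PM Pool.Agent.H7.PL

open Classical in
/-- coefficients of the sum over integers without prime factors in `S` -/
noncomputable def tc (S : Finset ℕ) (n : ℕ) : ℂ :=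
  if ∀ p ∈ S, ¬ p ∣ n then (n : ℂ) ^ (-(1 / 2) : ℂ) else 0

/-- partial sums over integers without prime factors in `S` -/
noncomputable def TS (S : Finset ℕ) (N : ℕ) : Tor → ℂ := DPol (Finset.Icc 1 N) (tc S)

lemma continuous_TS (S : Finset ℕ) (N : ℕ) : Continuous (TS S N) := continuous_DPol _ _

lemma TS_empty (N : ℕ) : TS ∅ N = SN N := by
  funext z
  unfold TS SN DPol tc
  simp

/-- the step from `S` to `S ∪ {p}` -/
lemma TS_insert (S : Finset ℕ) (hS : ∀ q ∈ S, q.Prime) (p : ℕ) (hp : p.Prime) (hpS : p ∉ S)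
    (N : ℕ) (z : Tor) : TS (insert p S) N z =
      TS S N z - ((p : ℂ) ^ (-(1 / 2) : ℂ) * stf p z) * TS S (N / p) z := by
  classical
  have hp0 : 0 < p := hp.pos
  have h1 : TS S N z - TS (insert p S) N z =
      ∑ n ∈ (Finset.Icc 1 N).filter (fun n => p ∣ n), tc S n * stf n z := by
    unfold TS DPol
    rw [← Finset.sum_sub_distrib, Finset.sum_filter]
    refine Finset.sum_congr rfl fun n _ => ?_
    rw [← sub_mul]
    by_cases hd : p ∣ n
    · rw [if_pos hd]
      have : tc (insert p S) n = 0 := by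
        unfold tc
        rw [if_neg]
        intro h
        exact h p (Finset.mem_insert_self _ _) hd
      rw [this, sub_zero]
    · rw [if_neg hd]
      have : tc (insert p S) n = tc S n := by
        unfold tc
        simp only [Finset.mem_insert, forall_eq_or_imp, hd, not_false_eq_true, true_and]
      rw [this, sub_self, zero_mul]
  have h2 : ∑ n ∈ (Finset.Icc 1 N).filter (fun n => p ∣ n), tc S n * stf n z =
      ((p : ℂ) ^ (-(1 / 2) : ℂ) * stf p z) * TS S (N / p) z := by
    unfold TS DPol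
    rw [Finset.mul_sum]
    symm
    refine Finset.sum_nbij' (fun m => p * m) (fun n => n / p) ?_ ?_ ?_ ?_ ?_
    · intro m hm
      obtain ⟨hm1, hm2⟩ := Finset.mem_Icc.1 hm
      rw [Finset.mem_filter, Finset.mem_Icc]
      refine ⟨⟨Nat.mul_pos hp0 hm1, ?_⟩, dvd_mul_right p m⟩
      have := (Nat.le_div_iff_mul_le hp0).1 hm2
      rwa [mul_comm]
    · intro n hn
      rw [Finset.mem_filter, Finset.mem_Icc] at hn
      obtain ⟨⟨hn1, hn2⟩, hn3⟩ := hn
      rw [Finset.mem_Icc]
      refine ⟨?_, Nat.div_le_div_right hn2⟩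
      exact Nat.div_pos (Nat.le_of_dvd (by omega) hn3) hp0
    · intro m _
      exact Nat.mul_div_cancel_left m hp0
    · intro n hn
      rw [Finset.mem_filter] at hn
      exact Nat.mul_div_cancel' hn.2
    · intro m hm
      have hm0 : m ≠ 0 := by have := (Finset.mem_Icc.1 hm).1; omega
      rw [stf_mul p m hp.ne_zero hm0]
      have : tc S (p * m) = (p : ℂ) ^ (-(1 / 2) : ℂ) * tc S m := by
        unfold tc
        have hiff : (∀ q ∈ S, ¬ q ∣ p * m) ↔ ∀ q ∈ S, ¬ q ∣ m := by
          refine forall₂_congr fun q hq => not_congr ?_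
          rw [(hS q hq).dvd_mul]
          constructor
          · rintro (h | h)
            · exact absurd ((Nat.prime_dvd_prime_iff_eq (hS q hq) hp).1 h ▸ hq) hpS
            · exact h
          · exact Or.inr
        by_cases h : ∀ q ∈ S, ¬ q ∣ m
        · rw [if_pos h, if_pos (hiff.2 h), Nat.cast_mul, Complex.natCast_mul_natCast_cpow]
        · rw [if_neg h, if_neg (fun h' => h (hiff.1 h')), mul_zero]
      rw [this]
      ring
  rw [h2] at h1
  linear_combination -h1

lemma Sm.of_eq {k : ℝ} {G H : ℕ → Tor → ℂ} (h : Sm k G) (e : ∀ N z, G N z = H N z) : Sm k H := by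
  have : G = H := funext₂ e
  rwa [← this]

/-- slow variation of the sums without the primes in `S` -/
theorem slow_TS {k : ℝ} (hk : 0 < k) (S : Finset ℕ) (hS : ∀ q ∈ S, q.Prime) :
    ∀ d : ℕ, 0 < d → Sm k (fun N z => TS S N z - TS S (N / d) z) := by
  classical
  induction S using Finset.induction_on with
  | empty =>
    intro d hd
    simp_rw [TS_empty]
    exact slow hk d hd
  | insert p S hpS ih =>
    intro d hd
    have hS' : ∀ q ∈ S, q.Prime := fun q hq => hS q (Finset.mem_insert_of_mem hq)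
    have hp : p.Prime := hS p (Finset.mem_insert_self _ _)
    have h1 := ih hS' d hd
    have h2 := (h1.comp_div p hp.pos)
    have hA : Continuous fun z => -((p : ℂ) ^ (-(1 / 2) : ℂ) * stf p z) :=
      (continuous_const.mul (continuous_stf p)).neg
    have h3 := Sm.mul hk.le (fun N => (continuous_TS S (N / p)).sub (continuous_TS S (N / p / d)))
      hA h2
    have h4 := Sm.add hk.le (fun N => (continuous_TS S N).sub (continuous_TS S (N / d)))
      (fun N => hA.mul ((continuous_TS S (N / p)).sub (continuous_TS S (N / p / d)))) h1 h3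
    refine h4.of_eq fun N z => ?_
    rw [TS_insert S hS' p hp hpS, TS_insert S hS' p hp hpS]
    have e : N / d / p = N / p / d := by
      rw [Nat.div_div_eq_div_mul, Nat.div_div_eq_div_mul, mul_comm]
    rw [e]
    simp only [Pi.sub_apply, Pi.mul_apply]
    ring

/-- independence of one coordinate -/
lemma indep_one (k : ℝ) (hk : 0 < k) (j : ℕ) (A : UnitAddCircle → ℂ) (hA : Continuous A)
    (G : Tor → ℂ) (hG : Continuous G) (hGj : ∀ z w, G (Function.update z j w) = G z) :
    mo k (fun z => A (z j) * G z) = (∫ w, ‖A w‖ ^ k ∂cir) * mo k G := by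
  have hcA : Continuous fun w => ‖A w‖ ^ k := hA.norm.rpow_const fun _ => Or.inr hk.le
  have hcF : Continuous fun z : Tor => ((‖A (z j) * G z‖ ^ k : ℝ) : ℂ) :=
    Complex.continuous_ofReal.comp (continuous_norm_rpow
      ((hA.comp (continuous_apply j)).mul hG) hk.le)
  obtain ⟨C, _, hC⟩ := exists_bdd hcF
  have h := integral_resample j (fun z : Tor => ((‖A (z j) * G z‖ ^ k : ℝ) : ℂ)) hcF C hC
  have e0 : ((mo k (fun z => A (z j) * G z) : ℝ) : ℂ) =
      ∫ z, ((‖A (z j) * G z‖ ^ k : ℝ) : ℂ) ∂tor := integral_ofReal.symm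
  have e1 : (((∫ w, ‖A w‖ ^ k ∂cir) * mo k G : ℝ) : ℂ) =
      ∫ z, ∫ w, ((‖A (Function.update z j w j) * G (Function.update z j w)‖ ^ k : ℝ) : ℂ)
        ∂cir ∂tor := by
    have e2 : ∀ z : Tor, ∫ w, ((‖A (Function.update z j w j) *
        G (Function.update z j w)‖ ^ k : ℝ) : ℂ) ∂cir =
        (((∫ w, ‖A w‖ ^ k ∂cir) * ‖G z‖ ^ k : ℝ) : ℂ) := by
      intro z
      have e3 : ∀ w, ((‖A (Function.update z j w j) * G (Function.update z j w)‖ ^ k : ℝ) : ℂ) =
          ((‖A w‖ ^ k * ‖G z‖ ^ k : ℝ) : ℂ) := by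
        intro w
        rw [Function.update_self, hGj, norm_mul, Real.mul_rpow (norm_nonneg _) (norm_nonneg _)]
      simp_rw [e3]
      rw [← integral_mul_const]
      exact integral_ofReal
    simp_rw [e2]
    rw [show (∫ z, (((∫ w, ‖A w‖ ^ k ∂cir) * ‖G z‖ ^ k : ℝ) : ℂ) ∂tor) =
      ((∫ z, (∫ w, ‖A w‖ ^ k ∂cir) * ‖G z‖ ^ k ∂tor : ℝ) : ℂ) from integral_ofReal,
      integral_const_mul]
    rfl
  have e4 : ((mo k (fun z => A (z j) * G z) : ℝ) : ℂ) =
      (((∫ w, ‖A w‖ ^ k ∂cir) * mo k G : ℝ) : ℂ) := by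
    rw [e0, e1]
    exact h
  exact_mod_cast e4

lemma stf_update (n j : ℕ) (h : ¬ Nat.nth Nat.Prime j ∣ n) (z : Tor) (w : UnitAddCircle) :
    stf n (Function.update z j w) = stf n z := by
  unfold stf mon
  refine Finset.prod_congr rfl fun i _ => ?_
  by_cases hi : i = j
  · subst hi
    have : ex n i = 0 := by
      unfold ex
      exact Nat.factorization_eq_zero_of_not_dvd h
    rw [this, pow_zero, pow_zero]
  · simp only [Function.update_of_ne hi]

lemma TS_update (S : Finset ℕ) (N j : ℕ) (h : Nat.nth Nat.Prime j ∈ S) (z : Tor)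
    (w : UnitAddCircle) : TS S N (Function.update z j w) = TS S N z := by
  unfold TS DPol
  refine Finset.sum_congr rfl fun n _ => ?_
  unfold tc
  by_cases hn : ∀ p ∈ S, ¬ p ∣ n
  · rw [stf_update n j (hn _ h)]
  · rw [if_neg hn, zero_mul, zero_mul]

/-- the local factor at `p` -/
noncomputable def lf (k : ℝ) (p : ℕ) : ℝ := e1 k ((p : ℂ) ^ (-(1 / 2) : ℂ))

lemma norm_half_cpow (p : ℕ) (hp : 0 < p) : ‖(p : ℂ) ^ (-(1 / 2) : ℂ)‖ = (p : ℝ) ^ (-(1 / 2) : ℝ) := by
  rw [← Complex.ofReal_natCast, Complex.norm_cpow_eq_rpow_re_of_pos (by exact_mod_cast hp)]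
  norm_num

lemma norm_half_lt (p : ℕ) (hp : p.Prime) : ‖(p : ℂ) ^ (-(1 / 2) : ℂ)‖ < 1 := by
  rw [norm_half_cpow p hp.pos]
  exact Real.rpow_lt_one_of_one_lt_of_neg (by exact_mod_cast hp.one_lt) (by norm_num)

lemma lf_pos (k : ℝ) (p : ℕ) (hp : p.Prime) : 0 < lf k p := e1_pos k _ (norm_half_lt p hp)

/-- the inverse local factor -/
noncomputable def iA (p : ℕ) (w : UnitAddCircle) : ℂ :=
  Complex.exp (la ((p : ℂ) ^ (-(1 / 2) : ℂ)) (zet w))

lemma continuous_iA (p : ℕ) (hp : p.Prime) : Continuous (iA p) :=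
  Complex.continuous_exp.comp (continuous_la_zet _ (norm_half_lt p hp))

lemma iA_mul (p : ℕ) (hp : p.Prime) (w : UnitAddCircle) :
    iA p w * (1 - (p : ℂ) ^ (-(1 / 2) : ℂ) * zet w) = 1 := by
  have h5 : ‖(p : ℂ) ^ (-(1 / 2) : ℂ) * zet w‖ < 1 := by
    rw [norm_mul, norm_zet, mul_one]
    exact norm_half_lt p hp
  have h6 : (1 - (p : ℂ) ^ (-(1 / 2) : ℂ) * zet w) ≠ 0 :=
    Complex.slitPlane_ne_zero (la_slit _ _ h5)
  unfold iA la
  rw [Complex.exp_neg, Complex.exp_log h6, inv_mul_cancel₀ h6]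

lemma iA_int (k : ℝ) (p : ℕ) : ∫ w, ‖iA p w‖ ^ k ∂cir = lf k p := by
  unfold lf e1 iA
  refine integral_congr_ae (Eventually.of_forall fun t => ?_)
  simp only
  rw [Complex.norm_exp, ← Real.exp_mul, mul_comm]

/-- the limits for the sums without the primes in `S` -/
theorem Lm_TS {k : ℝ} (hk : 0 < k) {c : ℝ} (hc : Lm k SN c) (S : Finset ℕ)
    (hS : ∀ q ∈ S, q.Prime) : Lm k (TS S) (c * ∏ p ∈ S, (lf k p)⁻¹) := by
  classical
  induction S using Finset.induction_on with
  | empty =>
    have : TS ∅ = SN := funext TS_empty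
    rw [this, Finset.prod_empty, mul_one]
    exact hc
  | insert p S hpS ih =>
    have hS' : ∀ q ∈ S, q.Prime := fun q hq => hS q (Finset.mem_insert_of_mem hq)
    have hp : p.Prime := hS p (Finset.mem_insert_self _ _)
    have h0 := ih hS'
    set j := Nat.count Nat.Prime p with hj
    have hpj : Nat.nth Nat.Prime j = p := Nat.nth_count hp
    have hstf : ∀ z, stf p z = zet (z j) := fun z => by
      have := stf_prime j z
      rwa [hpj] at this
    have hcA : Continuous fun z : Tor => iA p (z j) :=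
      (continuous_iA p hp).comp (continuous_apply j)
    have hslow := slow_TS hk S hS' p hp.pos
    have hB : Continuous fun z : Tor => -(iA p (z j) * ((p : ℂ) ^ (-(1 / 2) : ℂ) * stf p z)) :=
      (hcA.mul (continuous_const.mul (continuous_stf p))).neg
    have h1 := Sm.mul hk.le (fun N => (continuous_TS S N).sub (continuous_TS S (N / p))) hB hslow
    have h2 : Sm k (fun N z => TS S N z - iA p (z j) * TS (insert p S) N z) := by
      refine h1.of_eq fun N z => ?_
      rw [TS_insert S hS' p hp hpS]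
      have h3 := iA_mul p hp (z j)
      rw [hstf]
      simp only [Pi.sub_apply]
      linear_combination (TS S N z) * h3
    have h4 := h0.congr hk (continuous_TS S) (fun N => hcA.mul (continuous_TS (insert p S) N)) h2
    have h5 : ∀ N, mo k (fun z => iA p (z j) * TS (insert p S) N z) =
        lf k p * mo k (TS (insert p S) N) := by
      intro N
      rw [indep_one k hk j (iA p) (continuous_iA p hp) _ (continuous_TS _ N)
        (fun z w => TS_update _ N j (by rw [hpj]; exact Finset.mem_insert_self _ _) z w), iA_int]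
    have h4' : Tendsto (fun N : ℕ => lf k p * mo k (TS (insert p S) N) /
        Real.log N ^ (k ^ 2 / 4)) atTop (𝓝 (c * ∏ p ∈ S, (lf k p)⁻¹)) :=
      Tendsto.congr (fun N => by rw [← h5]; rfl) h4
    have h6 := h4'.const_mul (lf k p)⁻¹
    have hl := lf_pos k p hp
    rw [Finset.prod_insert hpS]
    have e : (lf k p)⁻¹ * (c * ∏ p ∈ S, (lf k p)⁻¹) = c * ((lf k p)⁻¹ * ∏ p ∈ S, (lf k p)⁻¹) := by
      ring
    rw [e] at h6
    unfold Lm
    refine h6.congr fun N => ?_
    field_simp

end Pool.Agent.H7.PU
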