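import Pool.Agent.H7.PL.L13
import Pool.Graph.R_seed8.H306R2.EPLim

set_option autoImplicit false
open MeasureTheory Metric Filter
open scoped ComplexConjugate ENNReal Topology

/-! The local factors. -/

namespace Pool.Agent.H7.PU

open Pool.Agent.Helper873.OneVar Pool.Agent.Helper873.Product Pool.Agent.Helper873.Embed
  Pool.Agent.Helper873.Monomial Pool.Agent.H7.PM Pool.Agent.H7.PL Pool.Agent.H306R2

lemma asc_prod (κ : ℂ) (n : ℕ) : (ascPochhammer ℕ n).smeval κ = ∏ i ∈ Finset.range n, (κ + i) := by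
  induction n with
  | zero => simp
  | succ n ih =>
    rw [ascPochhammer_succ_right, Polynomial.smeval_mul, ih, Finset.prod_range_succ,
      Polynomial.smeval_add, Polynomial.smeval_X, Polynomial.smeval_natCast]
    simp

lemma choose_lc (κ : ℝ) (n : ℕ) : Ring.choose ((κ : ℂ) + n - 1) n = (lc κ n : ℂ) := by
  rw [← Ring.multichoose_eq]
  have h := Ring.factorial_nsmul_multichoose_eq_ascPochhammer (κ : ℂ) n
  rw [asc_prod, nsmul_eq_mul] at h
  have hf : (n.factorial : ℂ) ≠ 0 := by exact_mod_cast n.factorial_ne_zero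
  have h2 : (n.factorial : ℂ) * (lc κ n : ℂ) = ∏ i ∈ Finset.range n, ((κ : ℂ) + i) := by
    unfold lc
    clear h
    induction n with
    | zero => simp
    | succ n ih =>
      rw [Finset.prod_range_succ, Finset.prod_range_succ, ← ih (by exact_mod_cast n.factorial_ne_zero),
        Nat.factorial_succ]
      have : (n : ℂ) + 1 ≠ 0 := by exact_mod_cast Nat.succ_ne_zero n
      push_cast
      field_simp
  exact mul_left_cancel₀ hf (h.trans h2.symm)

lemma hasSum_pow_series (κ : ℝ) (w : ℂ) (hw : ‖w‖ < 1) :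
    HasSum (fun n => (lc κ n : ℂ) * w ^ n) (1 / (1 - w) ^ (κ : ℂ)) := by
  have h := (Complex.one_div_one_sub_cpow_hasFPowerSeriesOnBall_zero (κ : ℂ)).hasSum (y := w)
    (by
      rw [Metric.mem_eball, edist_zero_right, ← ofReal_norm, ← ENNReal.ofReal_one]
      exact (ENNReal.ofReal_lt_ofReal_iff one_pos).2 hw)
  rw [zero_add] at h
  refine h.congr_fun ?_
  intro n
  rw [FormalMultilinearSeries.ofScalars_apply_eq, choose_lc, smul_eq_mul]

/-- Parseval for absolutely convergent power series on the circle -/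
lemma parseval (a : ℕ → ℂ) (ha : Summable fun n => ‖a n‖) :
    ∫ t, ‖∑' n, a n * zet t ^ n‖ ^ 2 ∂cir = ∑' n, ‖a n‖ ^ 2 := by
  have hz : ∀ t n, ‖a n * zet t ^ n‖ = ‖a n‖ := fun t n => by
    rw [norm_mul, norm_pow, norm_zet, one_pow, mul_one]
  have hs : ∀ t, Summable fun n => a n * zet t ^ n := fun t =>
    Summable.of_norm (by simpa only [hz] using ha)
  have hczn : ∀ n : ℕ, Continuous fun t : UnitAddCircle => zet t ^ n := fun n =>
    continuous_zet.pow n
  have hcg : Continuous fun t => ∑' n, a n * zet t ^ n :=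
    continuous_tsum (fun n => continuous_const.mul (hczn n)) ha fun n t => (hz t n).le
  set g : UnitAddCircle → ℂ := fun t => ∑' n, a n * zet t ^ n with hg
  have hgb : ∀ t, ‖g t‖ ≤ ∑' n, ‖a n‖ := fun t => by
    refine (norm_tsum_le_tsum_norm (by simpa only [hz] using ha)).trans (le_of_eq ?_)
    simp only [hz]
  set T := ∑' n, ‖a n‖ with hT
  -- first expansion
  have h1 : ∀ m : ℕ, ∫ t, zet t ^ m * conj (g t) ∂cir = conj (a m) := by
    intro m
    have e : ∀ t, zet t ^ m * conj (g t) = ∑' n, conj (a n) * (zet t ^ m * conj (zet t ^ n)) := by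
      intro t
      simp only [hg]
      rw [Complex.conj_tsum, ← tsum_mul_left]
      refine tsum_congr fun n => ?_
      rw [map_mul]; ring
    simp_rw [e]
    have hint : ∀ n : ℕ, Integrable (fun t => conj (a n) * (zet t ^ m * conj (zet t ^ n))) cir :=
      fun n => integrable_cir (continuous_const.mul ((hczn m).mul
        (Complex.continuous_conj.comp (hczn n))))
    have hn : ∀ n t, ‖conj (a n) * (zet t ^ m * conj (zet t ^ n))‖ = ‖a n‖ := fun n t => by
      rw [norm_mul, norm_mul, Complex.norm_conj, Complex.norm_conj, norm_pow, norm_pow, norm_zet]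
      simp
    have hsum : Summable fun n : ℕ => ∫ t, ‖conj (a n) * (zet t ^ m * conj (zet t ^ n))‖ ∂cir := by
      simp_rw [hn]
      simpa using ha
    rw [← integral_tsum_of_summable_integral_norm hint hsum, tsum_eq_single m]
    · rw [integral_const_mul]
      have : ∀ t, zet t ^ m * conj (zet t ^ m) = 1 := fun t => by
        rw [Complex.mul_conj, Complex.normSq_eq_norm_sq, norm_pow, norm_zet]
        simp
      simp_rw [this]
      simp
    · intro n hnm
      rw [integral_const_mul, integral_zet_pow m n (Ne.symm hnm), mul_zero]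
  have h2 : ∫ t, g t * conj (g t) ∂cir = ∑' m, a m * conj (a m) := by
    have e : ∀ t, g t * conj (g t) = ∑' m, a m * (zet t ^ m * conj (g t)) := by
      intro t
      have : g t = ∑' m, a m * zet t ^ m := rfl
      conv_lhs => rw [this]
      rw [← tsum_mul_right]
      exact tsum_congr fun m => by rw [mul_assoc]
    simp_rw [e]
    have hcc : Continuous fun t => conj (g t) := Complex.continuous_conj.comp hcg
    have hint : ∀ m : ℕ, Integrable (fun t => a m * (zet t ^ m * conj (g t))) cir := fun m =>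
      integrable_cir (continuous_const.mul ((hczn m).mul hcc))
    have hsum : Summable fun m : ℕ => ∫ t, ‖a m * (zet t ^ m * conj (g t))‖ ∂cir := by
      refine Summable.of_nonneg_of_le (fun m => integral_nonneg fun t => norm_nonneg _)
        (fun m => ?_) (ha.mul_right T)
      have h3 : ∀ t, ‖a m * (zet t ^ m * conj (g t))‖ ≤ ‖a m‖ * T := fun t => by
        rw [norm_mul, norm_mul, norm_pow, norm_zet, one_pow, one_mul, Complex.norm_conj]
        exact mul_le_mul_of_nonneg_left (hgb t) (norm_nonneg _)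
      calc ∫ t, ‖a m * (zet t ^ m * conj (g t))‖ ∂cir ≤ ∫ _t : UnitAddCircle, ‖a m‖ * T ∂cir :=
            integral_mono (integrable_cir (continuous_const.mul ((hczn m).mul hcc)).norm)
              (integrable_const _) h3
        _ = ‖a m‖ * T := by simp
    rw [← integral_tsum_of_summable_integral_norm hint hsum]
    refine tsum_congr fun m => ?_
    rw [integral_const_mul, h1]
  have h3 : ((∫ t, ‖g t‖ ^ 2 ∂cir : ℝ) : ℂ) = ((∑' n, ‖a n‖ ^ 2 : ℝ) : ℂ) := by
    have e0 : ((∫ t, ‖g t‖ ^ 2 ∂cir : ℝ) : ℂ) = ∫ t, ((‖g t‖ ^ 2 : ℝ) : ℂ) ∂cir :=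
      integral_ofReal.symm
    rw [e0, Complex.ofReal_tsum]
    have e1 : ∀ t, ((‖g t‖ ^ 2 : ℝ) : ℂ) = g t * conj (g t) := fun t => by
      rw [Complex.mul_conj, Complex.normSq_eq_norm_sq]
    have e2 : ∀ n, ((‖a n‖ ^ 2 : ℝ) : ℂ) = a n * conj (a n) := fun n => by
      rw [Complex.mul_conj, Complex.normSq_eq_norm_sq]
    simp_rw [e1, e2]
    exact h2
  exact_mod_cast h3

/-- the local factor -/
lemma e1_series {k : ℝ} (hk : 0 < k) (x : ℂ) (hx : ‖x‖ < 1) :
    e1 k x = ∑' m : ℕ, lc (k / 2) m ^ 2 * (‖x‖ ^ 2) ^ m := by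
  have hk2 : 0 ≤ k / 2 := by positivity
  have hw : ∀ t, ‖x * zet t‖ < 1 := fun t => by rw [norm_mul, norm_zet, mul_one]; exact hx
  have hsx : Summable fun n => ‖(lc (k / 2) n : ℂ) * x ^ n‖ := by
    have h1 := (hasSum_pow_series (k / 2) ((‖x‖ : ℝ) : ℂ) (by
      rw [Complex.norm_real, Real.norm_of_nonneg (norm_nonneg _)]; exact hx)).summable.norm
    refine h1.congr fun n => ?_
    rw [norm_mul, norm_mul, norm_pow, norm_pow, Complex.norm_real, Complex.norm_real,
      Real.norm_of_nonneg (norm_nonneg x)]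
  have h := parseval (fun n => (lc (k / 2) n : ℂ) * x ^ n) hsx
  have e1' : ∀ t, ∑' n, (lc (k / 2) n : ℂ) * x ^ n * zet t ^ n =
      1 / (1 - x * zet t) ^ ((k / 2 : ℝ) : ℂ) := by
    intro t
    rw [← (hasSum_pow_series (k / 2) (x * zet t) (hw t)).tsum_eq]
    exact tsum_congr fun n => by rw [mul_pow]; ring
  simp_rw [e1'] at h
  unfold e1
  rw [show (∑' m : ℕ, lc (k / 2) m ^ 2 * (‖x‖ ^ 2) ^ m) =
      ∑' n, ‖(lc (k / 2) n : ℂ) * x ^ n‖ ^ 2 from tsum_congr fun n => by
    rw [norm_mul, Complex.norm_real, norm_pow, mul_pow, Real.norm_eq_abs, sq_abs]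
    ring, ← h]
  refine integral_congr_ae (Eventually.of_forall fun t => ?_)
  simp only
  have hne : 1 - x * zet t ≠ 0 := Complex.slitPlane_ne_zero (la_slit _ _ (hw t))
  have hpos : 0 < ‖1 - x * zet t‖ := norm_pos_iff.2 hne
  unfold la
  rw [Complex.neg_re, Complex.log_re, norm_div, norm_one, Complex.norm_cpow_real, one_div,
    inv_pow, ← Real.rpow_natCast (‖1 - x * zet t‖ ^ (k / 2)), ← Real.rpow_mul hpos.le,
    ← Real.rpow_neg hpos.le, Real.rpow_def_of_pos hpos]
  congr 1
  push_cast
  ring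

end Pool.Agent.H7.PU
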