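import Pool.Agent.H7.PU.U4
import Pool.Agent.H7.PU.U5

set_option autoImplicit false
open MeasureTheory Metric Filter
open scoped ComplexConjugate ENNReal Topology

/-! One sided Kronecker-Weyl theorem. -/

namespace Pool.Agent.H7.PU

open Pool.Agent.Helper873.OneVar Pool.Agent.Helper873.Product Pool.Agent.Helper873.Embed
  Pool.Agent.Helper873.Monomial Pool.Agent.Helper873.Mean Pool.Agent.Helper873.Alg
  Pool.Agent.H7.PM Pool.Agent.H7.PL

/-- mean over `[0, T]` -/
noncomputable def mP (f : ℝ → ℂ) (T : ℝ) : ℂ := (1 / T : ℝ) * ∫ t in (0 : ℝ)..T, f t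

lemma mP_le (f : ℝ → ℂ) (B : ℝ) (hB : ∀ t, ‖f t‖ ≤ B) (T : ℝ) (hT : 0 < T) : ‖mP f T‖ ≤ B := by
  unfold mP
  rw [norm_mul, Complex.norm_real, Real.norm_of_nonneg (by positivity)]
  have h1 := intervalIntegral.norm_integral_le_of_norm_le_const (a := 0) (b := T) (f := f) (C := B)
    fun t _ => hB t
  rw [abs_of_nonneg (by linarith : 0 ≤ T - 0)] at h1
  calc 1 / T * ‖∫ t in (0 : ℝ)..T, f t‖ ≤ 1 / T * (B * (T - 0)) := by gcongr
    _ = B := by field_simp; ring

lemma mP_exp (ω : ℝ) (hω : ω ≠ 0) :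
    Tendsto (fun T => mP (fun t => Complex.exp ((ω * t : ℝ) * Complex.I)) T) atTop (𝓝 0) := by
  have hint : ∀ T : ℝ, ∫ t in (0 : ℝ)..T, Complex.exp (((ω * t : ℝ) : ℂ) * Complex.I) =
      (Complex.exp ((ω * T : ℝ) * Complex.I) - 1) / (ω * Complex.I) := by
    intro T
    have hc : (ω : ℂ) * Complex.I ≠ 0 := by
      refine mul_ne_zero ?_ Complex.I_ne_zero
      exact_mod_cast hω
    have h1 := integral_exp_mul_complex (a := 0) (b := T) hc
    have h2 : ∀ t : ℝ, Complex.exp (((ω * t : ℝ) : ℂ) * Complex.I) =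
        Complex.exp ((ω : ℂ) * Complex.I * t) := by
      intro t; congr 1; push_cast; ring
    simp_rw [h2]
    rw [h1]
    simp
  have hb : ∀ T : ℝ, 0 < T → ‖mP (fun t => Complex.exp ((ω * t : ℝ) * Complex.I)) T‖ ≤
      (2 / |ω|) * (1 / T) := by
    intro T hT
    unfold mP
    rw [hint T, norm_mul, Complex.norm_real, Real.norm_of_nonneg (by positivity), norm_div,
      norm_mul, Complex.norm_I, mul_one, Complex.norm_real, Real.norm_eq_abs]
    have h3 : ‖Complex.exp ((ω * T : ℝ) * Complex.I) - 1‖ ≤ 2 := by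
      refine (norm_sub_le _ _).trans ?_
      rw [Complex.norm_exp_ofReal_mul_I, norm_one]
      norm_num
    have hω' : 0 < |ω| := abs_pos.2 hω
    calc 1 / T * (‖Complex.exp ((ω * T : ℝ) * Complex.I) - 1‖ / |ω|) ≤ 1 / T * (2 / |ω|) := by
          gcongr
      _ = _ := by ring
  refine squeeze_zero_norm' (a := fun T => (2 / |ω|) * (1 / T)) ?_ ?_
  · filter_upwards [eventually_gt_atTop 0] with T hT using hb T hT
  · have h5 : Tendsto (fun T : ℝ => T⁻¹) atTop (𝓝 0) := tendsto_inv_atTop_zero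
    have := h5.const_mul (2 / |ω|)
    rw [mul_zero] at this
    refine this.congr fun T => ?_
    rw [one_div T]

/-- the one sided time mean equals the space mean -/
def EqP (f : C(ℕ → UnitAddCircle, ℂ)) : Prop :=
  Tendsto (fun T => mP (fun t => f (zt t)) T) atTop (𝓝 (∫ z, f z ∂tor))

lemma eqP_char (m n : ℕ) : EqP (chiC m * star (chiC n)) := by
  unfold EqP
  by_cases h : m = n
  · subst h
    have h1 : ∀ z : ℕ → UnitAddCircle, (chiC m * star (chiC m)) z = 1 := by
      intro z
      simp only [ContinuousMap.mul_apply, ContinuousMap.star_apply, chiC, ContinuousMap.coe_mk]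
      rw [← starRingEnd_apply, Complex.mul_conj, Complex.normSq_eq_norm_sq, norm_chi]
      simp
    simp_rw [h1]
    have h2 : ∀ T : ℝ, 0 < T → mP (fun _ => (1 : ℂ)) T = 1 := by
      intro T hT
      unfold mP
      rw [intervalIntegral.integral_const]
      rw [Complex.real_smul, mul_one]
      rw [← Complex.ofReal_mul]
      have : 1 / T * (T - 0) = 1 := by field_simp; ring
      rw [this]; simp
    have h3 : ∫ _ : ℕ → UnitAddCircle, (1 : ℂ) ∂tor = 1 := by simp
    rw [h3]
    refine Tendsto.congr' ?_ tendsto_const_nhds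
    filter_upwards [eventually_gt_atTop 0] with T hT using (h2 T hT).symm
  · have h0 : ∫ z, (chiC m * star (chiC n)) z ∂tor = 0 := orth m n h
    rw [h0]
    set ω : ℝ := Real.log (n + 1) - Real.log (m + 1) with hω
    have hω0 : ω ≠ 0 := by
      intro h0
      have h1 : Real.log (n + 1) = Real.log (m + 1) := by linarith
      have h2 := Real.log_injOn_pos (Set.mem_Ioi.2 (by positivity : (0 : ℝ) < (n : ℝ) + 1))
        (Set.mem_Ioi.2 (by positivity : (0 : ℝ) < (m : ℝ) + 1)) h1
      have h3 : (n : ℝ) = m := by linarith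
      exact h (by exact_mod_cast h3.symm)
    have h1 : ∀ t : ℝ, (chiC m * star (chiC n)) (zt t) =
        Complex.exp ((ω * t : ℝ) * Complex.I) := by
      intro t
      simp only [ContinuousMap.mul_apply, ContinuousMap.star_apply, chiC, ContinuousMap.coe_mk]
      rw [chi_zt, chi_zt, ← starRingEnd_apply, ← Complex.exp_conj, ← Complex.exp_add]
      congr 1
      rw [map_mul, Complex.conj_ofReal, Complex.conj_I, hω]
      push_cast
      ring
    simp_rw [h1]
    exact mP_exp ω hω0

lemma eqP_V (f : C(ℕ → UnitAddCircle, ℂ)) (hf : f ∈ V) : EqP f := by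
  unfold V at hf
  induction hf using Submodule.span_induction with
  | mem f hf => obtain ⟨p, rfl⟩ := hf; exact eqP_char p.1 p.2
  | zero =>
    unfold EqP
    simp [mP]
  | add f g _ _ hf hg =>
    unfold EqP at *
    have h1 : ∫ z, (f + g) z ∂tor = ∫ z, f z ∂tor + ∫ z, g z ∂tor := by
      simp only [ContinuousMap.add_apply]
      exact integral_add (integrable_C f) (integrable_C g)
    rw [h1]
    refine (hf.add hg).congr fun T => ?_
    unfold mP
    simp only [ContinuousMap.add_apply]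
    rw [intervalIntegral.integral_add (ii f _ _) (ii g _ _), mul_add]
  | smul a f _ hf =>
    unfold EqP at *
    have h1 : ∫ z, (a • f) z ∂tor = a * ∫ z, f z ∂tor := by
      simp only [ContinuousMap.smul_apply, smul_eq_mul]
      exact integral_const_mul _ _
    rw [h1]
    refine (hf.const_mul a).congr fun T => ?_
    unfold mP
    simp only [ContinuousMap.smul_apply, smul_eq_mul]
    rw [intervalIntegral.integral_const_mul]
    ring

/-- **Kronecker-Weyl**, one sided -/
theorem kwP (f : C(ℕ → UnitAddCircle, ℂ)) : EqP f := by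
  unfold EqP
  rw [Metric.tendsto_atTop]
  intro ε hε
  obtain ⟨g, hg, hfg⟩ := dense f (ε / 4) (by positivity)
  obtain ⟨N, hN⟩ := (Metric.tendsto_atTop.1 (eqP_V g hg)) (ε / 4) (by positivity)
  refine ⟨max N 1, fun T hT => ?_⟩
  have hT1 : 0 < T := lt_of_lt_of_le one_pos ((le_max_right _ _).trans hT)
  have h1 := hN T ((le_max_left _ _).trans hT)
  rw [dist_eq_norm] at h1 ⊢
  have hpt : ∀ z, ‖f z - g z‖ ≤ ε / 4 := fun z =>
    ((f - g).norm_coe_le_norm z).trans hfg.le
  have h2 : mP (fun t => f (zt t)) T - mP (fun t => g (zt t)) T =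
      mP (fun t => f (zt t) - g (zt t)) T := by
    unfold mP
    rw [intervalIntegral.integral_sub (ii f _ _) (ii g _ _)]
    ring
  have h3 := mP_le (fun t => f (zt t) - g (zt t)) (ε / 4) (fun t => hpt (zt t)) T hT1
  rw [← h2] at h3
  have h4 : ‖∫ z, g z ∂tor - ∫ z, f z ∂tor‖ ≤ ε / 4 := by
    rw [← integral_sub (integrable_C g) (integrable_C f)]
    have h5 := norm_integral_le_of_norm_le_const (μ := tor) (f := fun z => g z - f z) (C := ε / 4)
      (Filter.Eventually.of_forall fun z => by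
        rw [norm_sub_rev]; exact hpt z)
    simpa using h5
  have h6 : mP (fun t => f (zt t)) T - ∫ z, f z ∂tor =
      (mP (fun t => f (zt t)) T - mP (fun t => g (zt t)) T) +
      (mP (fun t => g (zt t)) T - ∫ z, g z ∂tor) + (∫ z, g z ∂tor - ∫ z, f z ∂tor) := by ring
  rw [h6]
  calc _ ≤ ‖mP (fun t => f (zt t)) T - mP (fun t => g (zt t)) T‖ +
      ‖mP (fun t => g (zt t)) T - ∫ z, g z ∂tor‖ + ‖∫ z, g z ∂tor - ∫ z, f z ∂tor‖ :=
        norm_add₃_le
    _ < ε := by linarith

/-- the one sided means of the powers of a continuous function -/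
theorem mean_pow {k : ℝ} (hk : 0 < k) (G : Tor → ℂ) (hG : Continuous G) :
    Tendsto (fun T : ℝ => (1 / T) * ∫ t in (0 : ℝ)..T, ‖G (zt t)‖ ^ k) atTop (𝓝 (mo k G)) := by
  have hc : Continuous fun z => ((‖G z‖ ^ k : ℝ) : ℂ) :=
    Complex.continuous_ofReal.comp (continuous_norm_rpow hG hk.le)
  have h1 := kwP ⟨_, hc⟩
  unfold EqP at h1
  simp only [ContinuousMap.coe_mk] at h1
  have h2 : ∫ z, ((‖G z‖ ^ k : ℝ) : ℂ) ∂tor = ((mo k G : ℝ) : ℂ) := integral_ofReal
  rw [h2] at h1
  have h3 := (Complex.continuous_re.tendsto _).comp h1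
  rw [Complex.ofReal_re] at h3
  refine h3.congr fun T => ?_
  simp only [Function.comp]
  unfold mP
  rw [intervalIntegral.integral_ofReal, ← Complex.ofReal_mul, Complex.ofReal_re]

end Pool.Agent.H7.PU
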